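import Mathlib

set_option autoImplicit false

open scoped ComplexConjugate

/-!
# Weyl-Heisenberg fiducial vectors: definitions and the basic Fourier identities
-/

namespace Pool.Agent.Q142.SIC

/-- `X ^ a Z ^ b ψ`: its `j`-th coordinate is `ω ^ (b (j - a)) ψ (j - a)`, `ω = exp (2 π i / d)`. -/
noncomputable def displace {d : ℕ} [NeZero d] (a b : ZMod d) (ψ : ZMod d → ℂ) : ZMod d → ℂ :=
  fun j => ZMod.stdAddChar (b * (j - a)) * ψ (j - a)

/-- The overlap `⟨ψ | X ^ a Z ^ b | ψ⟩`. -/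
noncomputable def overlap {d : ℕ} [NeZero d] (ψ : ZMod d → ℂ) (a b : ZMod d) : ℂ :=
  ∑ j, conj (ψ j) * displace a b ψ j

/-- `ψ` is a unit vector all of whose overlaps with its nontrivial displacements have squared
modulus `1 / (d + 1)`. -/
def IsFiducial {d : ℕ} [NeZero d] (ψ : ZMod d → ℂ) : Prop :=
  ∑ j, ‖ψ j‖ ^ 2 = 1 ∧ ∀ a b : ZMod d, (a, b) ≠ (0, 0) → ‖overlap ψ a b‖ ^ 2 = 1 / ((d : ℝ) + 1)

variable {d : ℕ} [NeZero d]

lemma overlap_eq (ψ : ZMod d → ℂ) (a b : ZMod d) :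
    overlap ψ a b = ∑ j, conj (ψ (j + a)) * (ZMod.stdAddChar (b * j) * ψ j) := by
  unfold overlap displace
  rw [← Equiv.sum_comp (Equiv.addRight a)]
  simp

/-- conjugation of characters -/
lemma conj_char (x : ZMod d) : conj (ZMod.stdAddChar x : ℂ) = ZMod.stdAddChar (-x) := by
  rw [AddChar.starComp_apply (by rw [ZMod.ringChar_zmod_n]; exact Nat.pos_of_ne_zero (NeZero.ne d)),
    AddChar.inv_apply]

lemma norm_char (x : ZMod d) : ‖(ZMod.stdAddChar x : ℂ)‖ = 1 := by
  rw [ZMod.stdAddChar_apply]; exact Circle.norm_coe _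

lemma sum_char (b : ZMod d) :
    ∑ x : ZMod d, (ZMod.stdAddChar (x * b) : ℂ) = if b = 0 then (d : ℂ) else 0 := by
  have h := AddChar.sum_mulShift b (ZMod.isPrimitive_stdAddChar d)
  rw [h]
  split_ifs <;> simp [ZMod.card]

/-- Fourier inversion for the overlaps. -/
lemma overlap_inversion (ψ : ZMod d → ℂ) (a s : ZMod d) :
    ∑ b, overlap ψ a b * ZMod.stdAddChar (-(b * s)) = d * (conj (ψ (s + a)) * ψ s) := by
  simp_rw [overlap_eq, Finset.sum_mul]
  rw [Finset.sum_comm]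
  have : ∀ j : ZMod d, ∑ b : ZMod d, conj (ψ (j + a)) * (ZMod.stdAddChar (b * j) * ψ j)
      * ZMod.stdAddChar (-(b * s)) = conj (ψ (j + a)) * ψ j * (if j - s = 0 then (d : ℂ) else 0) := by
    intro j
    rw [← sum_char, Finset.mul_sum]
    refine Finset.sum_congr rfl fun b _ => ?_
    have : (ZMod.stdAddChar (b * (j - s)) : ℂ) = ZMod.stdAddChar (b * j) * ZMod.stdAddChar (-(b * s)) := by
      rw [← AddChar.map_add_eq_mul]; congr 1; ring
    rw [this]; ring
  simp_rw [this]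
  rw [Finset.sum_eq_single s]
  · simp; ring
  · intro j _ hj
    rw [if_neg (sub_ne_zero.2 hj)]; simp
  · simp

/-- Plancherel for the overlaps. -/
lemma overlap_plancherel (ψ : ZMod d → ℂ) (a t : ZMod d) :
    ∑ b, (‖overlap ψ a b‖ ^ 2 : ℂ) * ZMod.stdAddChar (-(b * t))
      = d * ∑ k, conj (ψ k) * ψ (k + a) * ψ (k + t) * conj (ψ (k + a + t)) := by
  have h1 : ∀ b, (‖overlap ψ a b‖ ^ 2 : ℂ) * ZMod.stdAddChar (-(b * t))
      = ∑ j, overlap ψ a b * ZMod.stdAddChar (-(b * (j + t))) * (ψ (j + a) * conj (ψ j)) := by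
    intro b
    have : (‖overlap ψ a b‖ ^ 2 : ℂ) = overlap ψ a b * conj (overlap ψ a b) := by
      rw [Complex.mul_conj, Complex.normSq_eq_norm_sq]; push_cast; rfl
    rw [this]
    conv_lhs => rw [overlap_eq ψ a b, map_sum]
    rw [← overlap_eq, Finset.mul_sum, Finset.sum_mul]
    refine Finset.sum_congr rfl fun j _ => ?_
    simp only [map_mul, Complex.conj_conj, conj_char]
    have : (ZMod.stdAddChar (-(b * (j + t))) : ℂ) = ZMod.stdAddChar (-(b * j)) * ZMod.stdAddChar (-(b * t)) := by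
      rw [← AddChar.map_add_eq_mul]; congr 1; ring
    rw [this]; ring
  simp_rw [h1]
  rw [Finset.sum_comm, Finset.mul_sum]
  refine Finset.sum_congr rfl fun j _ => ?_
  rw [← Finset.sum_mul, overlap_inversion, show j + t + a = j + a + t by ring]
  ring

/-- The four-term identity satisfied by every fiducial vector. -/
lemma four_term {ψ : ZMod d → ℂ} (h : IsFiducial ψ) (a t : ZMod d) :
    ∑ k, conj (ψ k) * ψ (k + a) * ψ (k + t) * conj (ψ (k + a + t))
      = ((if a = 0 then 1 else 0) + (if t = 0 then 1 else 0)) / ((d : ℂ) + 1) := by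
  have hd : (d : ℂ) ≠ 0 := Nat.cast_ne_zero.2 (NeZero.ne d)
  have hd1 : (d : ℂ) + 1 ≠ 0 := by
    have : ((d + 1 : ℕ) : ℂ) ≠ 0 := Nat.cast_ne_zero.2 (Nat.succ_ne_zero d)
    simpa using this
  have h00 : overlap ψ 0 0 = 1 := by
    rw [overlap_eq]
    have : ∑ j, conj (ψ (j + 0)) * (ZMod.stdAddChar (0 * j) * ψ j) = ((∑ j, ‖ψ j‖ ^ 2 : ℝ) : ℂ) := by
      push_cast
      refine Finset.sum_congr rfl fun j _ => ?_
      simp only [add_zero, zero_mul, AddChar.map_zero_eq_one, one_mul]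
      rw [mul_comm, Complex.mul_conj, Complex.normSq_eq_norm_sq]; push_cast; rfl
    rw [this, h.1]; simp
  have key := overlap_plancherel ψ a t
  have hval : ∀ b, (‖overlap ψ a b‖ ^ 2 : ℂ)
      = 1 / ((d : ℂ) + 1) + (if (a, b) = (0, 0) then (d : ℂ) / ((d : ℂ) + 1) else 0) := by
    intro b
    split_ifs with hab
    · simp only [Prod.mk.injEq] at hab
      rw [hab.1, hab.2, h00]
      simp only [norm_one, Complex.ofReal_one, one_pow]
      rw [← add_div, add_comm, div_self hd1]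
    · have := h.2 a b hab
      have h2 : ((‖overlap ψ a b‖ ^ 2 : ℝ) : ℂ) = ((1 / ((d : ℝ) + 1) : ℝ) : ℂ) := by rw [this]
      push_cast at h2
      rw [h2, add_zero]
  have hs1 : ∑ b : ZMod d, (ZMod.stdAddChar (-(b * t)) : ℂ) = if t = 0 then (d : ℂ) else 0 := by
    have := sum_char (-t)
    simp only [mul_neg, neg_eq_zero] at this
    exact this
  have hs2 : ∑ b : ZMod d, (if (a, b) = (0, 0) then (d : ℂ) / ((d : ℂ) + 1) else 0)
      * (ZMod.stdAddChar (-(b * t)) : ℂ) = if a = 0 then (d : ℂ) / ((d : ℂ) + 1) else 0 := by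
    rw [Finset.sum_eq_single 0]
    · by_cases ha : a = 0 <;> simp [ha]
    · intro b _ hb
      rw [if_neg (by simp [hb])]; simp
    · simp
  simp_rw [hval, add_mul] at key
  rw [Finset.sum_add_distrib, ← Finset.mul_sum, hs1, hs2] at key
  apply mul_left_cancel₀ hd
  rw [← key]
  by_cases ha : a = 0 <;> by_cases ht : t = 0 <;> simp [ha, ht] <;> field_simp

end Pool.Agent.Q142.SIC
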