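import Pool.Agent.Q142.SIC.Parity

set_option autoImplicit false

open scoped ComplexConjugate

/-!
# Fiducial vectors with a parity symmetry on one tensor factor
-/

namespace Pool.Agent.Q142.SIC

section

variable {u v : ℕ} [NeZero u] [NeZero v] (h : Nat.Coprime u v)

/-- the embedding of `ZMod v` as the `v`-part of `ZMod (u * v)` -/
noncomputable def inc (y : ZMod v) : ZMod (u * v) := (ZMod.chineseRemainder h).symm (0, y)

lemma inc_add (y y' : ZMod v) : inc h (y + y') = inc h y + inc h y' := by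
  unfold inc; rw [← map_add]; simp

lemma inc_mul (y y' : ZMod v) : inc h (y * y') = inc h y * inc h y' := by
  unfold inc; rw [← map_mul]; simp

lemma inc_zero : inc h 0 = 0 := by unfold inc; exact map_zero _

lemma inc_neg (y : ZMod v) : inc h (-y) = -inc h y := by
  unfold inc; rw [← map_neg]; simp

lemma inc_inj {y y' : ZMod v} (hy : inc h y = inc h y') : y = y' := by
  unfold inc at hy
  have := (ZMod.chineseRemainder h).symm.injective hy
  exact (Prod.mk.inj this).2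

/-- the `v`-coordinate -/
noncomputable def vco (r : ZMod (u * v)) : ZMod v := (ZMod.chineseRemainder h r).2

lemma inc_mul_right (y : ZMod v) (r : ZMod (u * v)) : inc h y * r = inc h (y * vco h r) := by
  apply (ZMod.chineseRemainder h).injective
  rw [map_mul]
  unfold inc vco
  simp only [RingEquiv.apply_symm_apply]
  ext <;> simp

/-- the character of `ZMod v` -/
noncomputable def chi : AddChar (ZMod v) ℂ where
  toFun y := ZMod.stdAddChar (inc h y)
  map_zero_eq_one' := by rw [inc_zero, AddChar.map_zero_eq_one]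
  map_add_eq_mul' y y' := by rw [inc_add, AddChar.map_add_eq_mul]

lemma chi_apply (y : ZMod v) : chi h y = ZMod.stdAddChar (inc h y) := rfl

lemma chi_prim : (chi h).IsPrimitive := by
  apply AddChar.zmod_char_primitive_of_eq_one_only_at_zero
  intro y hy
  rw [chi_apply, ← AddChar.map_zero_eq_one (ZMod.stdAddChar (N := u * v))] at hy
  have := ZMod.injective_stdAddChar hy
  rw [← inc_zero h] at this
  exact inc_inj h this

lemma sum_chi (w : ZMod v) : ∑ b : ZMod v, chi h (b * w) = if w = 0 then (v : ℂ) else 0 := by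
  have := AddChar.sum_mulShift w (chi_prim h)
  rw [this]
  split_ifs <;> simp [ZMod.card]

/-- twisted overlaps on the `v`-part -/
noncomputable def Sv (ψ : ZMod (u * v) → ℂ) (H a b : ZMod v) : ℂ :=
  chi h (H * a * b) * overlap ψ (inc h a) (inc h b)

lemma sum_Sv (ψ : ZMod (u * v) → ℂ) {H : ZMod v} (hH : 2 * H = 1) :
    ∑ a : ZMod v, ∑ b : ZMod v, Sv h ψ H a b
      = v * ∑ r, conj (ψ ((1 - 2 * inc h 1) * r)) * ψ r := by
  have h1 : ∀ a : ZMod v, ∑ b : ZMod v, Sv h ψ H a b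
      = ∑ r, conj (ψ (r + inc h a)) * ψ r * (if H * a + vco h r = 0 then (v : ℂ) else 0) := by
    intro a
    unfold Sv
    simp_rw [overlap_eq, Finset.mul_sum]
    rw [Finset.sum_comm]
    refine Finset.sum_congr rfl fun r _ => ?_
    rw [← sum_chi h, Finset.mul_sum]
    refine Finset.sum_congr rfl fun b _ => ?_
    rw [inc_mul_right, ← chi_apply]
    have : chi h (b * (H * a + vco h r)) = chi h (H * a * b) * chi h (b * vco h r) := by
      rw [← AddChar.map_add_eq_mul]; congr 1; ring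
    rw [this]; ring
  simp_rw [h1]
  rw [Finset.sum_comm, Finset.mul_sum]
  refine Finset.sum_congr rfl fun r _ => ?_
  rw [Finset.sum_eq_single (-2 * vco h r)]
  · have e1 : H * (-2 * vco h r) + vco h r = 0 := by linear_combination (-vco h r) * hH
    rw [if_pos e1]
    have e2 : r + inc h (-2 * vco h r) = (1 - 2 * inc h 1) * r := by
      have e3 : inc h (-2 * vco h r) = -(2 * inc h (1 * vco h r)) := by
        have : (-2 : ZMod v) * vco h r = -(1 * vco h r + 1 * vco h r) := by ring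
        rw [this, inc_neg, inc_add]; ring
      rw [e3, ← inc_mul_right]; ring
    rw [e2]; ring
  · intro a _ ha
    have e1 : ¬ (H * a + vco h r = 0) := by
      intro h0
      apply ha
      linear_combination 2 * h0 - a * hH
    rw [if_neg e1, mul_zero]
  · simp

end

/-- the arithmetic conclusion -/
lemma arith {u v M : ℕ} (hupos : 0 < u) (hv1 : 1 < v) (hodd : Odd v) (hM : M ^ 2 = u * v + 1) (hMv : M ≤ v + 1)
    (hpp : IsPrimePow v) : u + 2 = v ∨ (M = v + 1 ∧ u = v + 2) := by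
  obtain ⟨p, k, hp, hk, rfl⟩ := (isPrimePow_nat_iff _).1 hpp
  have hu0 : 0 < M := by
    rcases Nat.eq_zero_or_pos M with h0 | h0
    · rw [h0] at hM; norm_num at hM
    · exact h0
  have hpodd : p ≠ 2 := by
    rintro rfl
    rw [Nat.odd_pow_iff hk.ne'] at hodd
    revert hodd; decide
  obtain ⟨n, rfl⟩ : ∃ n, M = n + 1 := ⟨M - 1, by omega⟩
  have hfac : u * p ^ k = n * (n + 2) := by nlinarith
  have hv3 : 3 ≤ p ^ k := by
    obtain ⟨j, hj⟩ := hodd
    omega
  have hdvd : p ^ k ∣ n * (n + 2) := ⟨u, by rw [← hfac]; ring⟩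
  have hcases : p ^ k ∣ n ∨ p ^ k ∣ n + 2 := by
    by_cases hpn : p ∣ n
    · left
      have : Nat.Coprime (p ^ k) (n + 2) := by
        apply Nat.Coprime.pow_left
        rw [Nat.Prime.coprime_iff_not_dvd hp]
        intro h2
        have h3 : p ∣ 2 := (Nat.dvd_add_right hpn).1 h2
        exact hpodd ((Nat.prime_dvd_prime_iff_eq hp Nat.prime_two).1 h3)
      exact this.dvd_of_dvd_mul_right hdvd
    · right
      have : Nat.Coprime (p ^ k) n := by
        apply Nat.Coprime.pow_left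
        rw [Nat.Prime.coprime_iff_not_dvd hp]
        exact hpn
      exact this.dvd_of_dvd_mul_left hdvd
  have hvpos : 0 < p ^ k := by omega
  rcases hcases with ⟨e, he⟩ | ⟨e, he⟩
  · right
    have he0 : e ≠ 0 := by
      rintro rfl
      rw [mul_zero] at he
      subst he
      have : u * p ^ k = 0 := by simpa using hfac
      rcases Nat.mul_eq_zero.1 this with h0 | h0 <;> omega
    have he1 : e = 1 := by
      by_contra hne
      have : 2 ≤ e := by omega
      nlinarith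
    subst he1
    rw [mul_one] at he
    refine ⟨by omega, ?_⟩
    rw [he] at hfac
    apply Nat.eq_of_mul_eq_mul_right hvpos
    rw [hfac]; ring
  · left
    have he0 : e ≠ 0 := by rintro rfl; omega
    have he1 : e = 1 := by
      by_contra hne
      have : 2 ≤ e := by omega
      nlinarith
    subst he1
    rw [mul_one] at he
    have : u * p ^ k = n * p ^ k := by rw [hfac, he]
    have := Nat.eq_of_mul_eq_mul_right hvpos this
    omega

section Main

variable {u v : ℕ} [NeZero u] [NeZero v] (h : Nat.Coprime u v)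

lemma eps_sq : (1 - 2 * inc h 1) * (1 - 2 * inc h 1) = 1 := by
  have : inc h 1 * inc h 1 = inc h 1 := by rw [← inc_mul, one_mul]
  linear_combination 4 * this

lemma eps_inc (y : ZMod v) : (1 - 2 * inc h 1) * inc h y = -inc h y := by
  have : inc h 1 * inc h y = inc h y := by rw [← inc_mul, one_mul]
  linear_combination (-2) * this

lemma eps_sign {ψ : ZMod (u * v) → ℂ} (hψ : IsFiducial ψ) {c : ℂ}
    (hc : ∀ r, ψ ((1 - 2 * inc h 1) * r) = c * ψ r) : c = 1 ∨ c = -1 := by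
  obtain ⟨r, hr⟩ := exists_ne_zero hψ
  have h1 := hc ((1 - 2 * inc h 1) * r)
  rw [← mul_assoc, eps_sq, one_mul, hc r] at h1
  have h2 : c ^ 2 = 1 := by
    apply mul_right_cancel₀ hr
    rw [one_mul]; nth_rewrite 2 [h1]; ring
  exact sq_eq_one_iff.1 h2

lemma overlap_eps {ψ : ZMod (u * v) → ℂ} {c : ℂ} (hcc : conj c * c = 1)
    (hc : ∀ r, ψ ((1 - 2 * inc h 1) * r) = c * ψ r) (a b : ZMod v) :
    overlap ψ (-inc h a) (-inc h b) = overlap ψ (inc h a) (inc h b) := by
  obtain ⟨ε, hε⟩ : ∃ ε : ZMod (u * v), ε = 1 - 2 * inc h 1 := ⟨_, rfl⟩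
  have hεε : ε * ε = 1 := by rw [hε]; exact eps_sq h
  have h1 : -inc h a = ε * inc h a := by rw [hε, eps_inc]
  have h2 : -inc h b = ε * inc h b := by rw [hε, eps_inc]
  rw [h1, h2, overlap_eq, overlap_eq]
  let e : ZMod (u * v) ≃ ZMod (u * v) :=
    { toFun := fun r => ε * r
      invFun := fun r => ε * r
      left_inv := fun r => by simp only [← mul_assoc, hεε, one_mul]
      right_inv := fun r => by simp only [← mul_assoc, hεε, one_mul] }
  rw [← Equiv.sum_comp e]
  refine Finset.sum_congr rfl fun j _ => ?_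
  have e1 : e j = ε * j := rfl
  rw [e1, ← mul_add, hε, hc, hc, map_mul, ← hε]
  have e2 : ε * inc h b * (ε * j) = inc h b * j := by linear_combination (inc h b * j) * hεε
  rw [e2]
  linear_combination (conj (ψ (j + inc h a)) * ZMod.stdAddChar (inc h b * j) * ψ j) * hcc

lemma Sv_sign {ψ : ZMod (u * v) → ℂ} (hψ : IsFiducial ψ) {c : ℂ} (hcc : conj c * c = 1)
    (hc : ∀ r, ψ ((1 - 2 * inc h 1) * r) = c * ψ r) {H : ZMod v} (hH : 2 * H = 1)
    {m : ℝ} (hm : m ^ 2 = ((u * v : ℕ) : ℝ) + 1) (a b : ZMod v) (hab : (a, b) ≠ (0, 0)) :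
    m * Sv h ψ H a b = 1 ∨ m * Sv h ψ H a b = -1 := by
  have hconj : conj (Sv h ψ H a b) = Sv h ψ H a b := by
    unfold Sv
    rw [map_mul, conj_overlap, overlap_eps h hcc hc, chi_apply, conj_char, ← inc_neg, ← inc_mul,
      ← chi_apply, ← chi_apply, ← chi_apply, ← mul_assoc, ← AddChar.map_add_eq_mul]
    congr 2
    linear_combination (-a * b) * hH
  have hne : (inc h a, inc h b) ≠ (0, 0) := by
    intro h0
    apply hab
    have h1 := Prod.mk.inj h0
    rw [← inc_zero h] at h1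
    rw [inc_inj h h1.1, inc_inj h h1.2]
  have hnorm : ‖(m : ℂ) * Sv h ψ H a b‖ ^ 2 = 1 := by
    unfold Sv
    rw [norm_mul, norm_mul, chi_apply, norm_char, one_mul, mul_pow, hψ.2 _ _ hne, Complex.norm_real,
      Real.norm_eq_abs, sq_abs, hm]
    have : ((u * v : ℕ) : ℝ) + 1 ≠ 0 := by positivity
    field_simp
  have hsq : ((m : ℂ) * Sv h ψ H a b) ^ 2 = 1 := by
    have h1 : ((m : ℂ) * Sv h ψ H a b) * conj ((m : ℂ) * Sv h ψ H a b)
        = ((‖(m : ℂ) * Sv h ψ H a b‖ ^ 2 : ℝ) : ℂ) := by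
      rw [Complex.mul_conj, Complex.normSq_eq_norm_sq]
    rw [map_mul, hconj, Complex.conj_ofReal, hnorm] at h1
    rw [sq, h1]; simp
  exact sq_eq_one_iff.1 hsq

theorem factor_parity (hv1 : 1 < v) (hodd : Odd v) {ψ : ZMod (u * v) → ℂ} (hψ : IsFiducial ψ) {c : ℂ}
    (hc : ∀ r, ψ ((1 - 2 * inc h 1) * r) = c * ψ r) :
    ∃ M : ℕ, M ^ 2 = u * v + 1 ∧ ((c = 1 ∧ M ≤ v + 1) ∨ (c = -1 ∧ M + 1 ≤ v)) := by
  have hcs := eps_sign h hψ hc
  have hcc : conj c * c = 1 := by
    rcases hcs with h1 | h1 <;> rw [h1] <;> simp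
  obtain ⟨κ, hκ, hcκ⟩ : ∃ κ : ℤ, κ ^ 2 = 1 ∧ c = κ := by
    rcases hcs with h1 | h1
    · exact ⟨1, by norm_num, by rw [h1]; simp⟩
    · exact ⟨-1, by norm_num, by rw [h1]; simp⟩
  obtain ⟨k, hk⟩ := hodd
  have hH : (2 : ZMod v) * ((k + 1 : ℕ) : ZMod v) = 1 := by
    have h1 : ((2 * (k + 1) : ℕ) : ZMod v) = 1 := by
      have : 2 * (k + 1) = v + 1 := by omega
      rw [this]; push_cast; simp
    push_cast at h1 ⊢
    exact h1
  obtain ⟨m, hm⟩ : ∃ m : ℝ, m = Real.sqrt (((u * v : ℕ) : ℝ) + 1) := ⟨_, rfl⟩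
  have hm0 : 0 < m := by rw [hm]; positivity
  have hm2 : m ^ 2 = ((u * v : ℕ) : ℝ) + 1 := by rw [hm, Real.sq_sqrt]; positivity
  have hsum := sum_Sv h ψ hH
  have hrhs : ∑ r, conj (ψ ((1 - 2 * inc h 1) * r)) * ψ r = c := by
    have h1 : ∀ r, conj (ψ ((1 - 2 * inc h 1) * r)) * ψ r = conj c * ((‖ψ r‖ ^ 2 : ℝ) : ℂ) := by
      intro r
      rw [hc, map_mul, mul_assoc]
      congr 1
      rw [mul_comm, Complex.mul_conj, Complex.normSq_eq_norm_sq]
    simp_rw [h1]
    rw [← Finset.mul_sum, ← Complex.ofReal_sum, hψ.1, hcκ]; simp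
  rw [hrhs] at hsum
  -- signs
  have hS : ∀ p : ZMod v × ZMod v, ∃ n : ℤ, |n| ≤ (if p = (0, 0) then 0 else 1) ∧
      m * Sv h ψ ((k + 1 : ℕ) : ZMod v) p.1 p.2 = (if p = (0, 0) then (m : ℂ) else 0) + n := by
    intro p
    by_cases hp : p = (0, 0)
    · refine ⟨0, by simp [hp], ?_⟩
      rw [if_pos hp, hp]
      unfold Sv
      rw [inc_zero, overlap_zero hψ]
      simp
    · rw [if_neg hp, if_neg hp]
      rcases Sv_sign h hψ hcc hc hH hm2 p.1 p.2 hp with h1 | h1
      · exact ⟨1, by simp, by rw [h1]; simp⟩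
      · exact ⟨-1, by simp, by rw [h1]; simp⟩
  choose n hn1 hn2 using hS
  obtain ⟨N, hN⟩ : ∃ N : ℤ, N = ∑ p, n p := ⟨_, rfl⟩
  have hNabs : |N| ≤ (v : ℤ) ^ 2 - 1 := by
    rw [hN]
    refine (Finset.abs_sum_le_sum_abs _ _).trans ((Finset.sum_le_sum fun p _ => hn1 p).trans ?_)
    have : ∑ p : ZMod v × ZMod v, (if p = (0, 0) then (0 : ℤ) else 1)
        = ∑ p : ZMod v × ZMod v, ((1 : ℤ) - if p = (0, 0) then 1 else 0) :=
      Finset.sum_congr rfl fun p _ => by split_ifs <;> simp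
    rw [this, Finset.sum_sub_distrib, Finset.sum_ite_eq']
    simp [ZMod.card, sq]
  have hmain : (m : ℂ) + N = v * c * m := by
    have h1 : (m : ℂ) * ∑ a : ZMod v, ∑ b : ZMod v, Sv h ψ ((k + 1 : ℕ) : ZMod v) a b = (m : ℂ) + N := by
      rw [← Fintype.sum_prod_type', Finset.mul_sum, hN]
      simp_rw [hn2]
      rw [Finset.sum_add_distrib, Finset.sum_ite_eq']
      simp
    rw [← h1, hsum]; ring
  rw [hcκ] at hmain
  have hreal : m + N = v * κ * m := by exact_mod_cast hmain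
  have hkne : (v : ℤ) * κ - 1 ≠ 0 := by
    rcases sq_eq_one_iff.1 hκ with h1 | h1
    · rw [h1]; omega
    · rw [h1]; omega
  have hkm : (((v : ℤ) * κ - 1 : ℤ) : ℝ) * m = ((N : ℤ) : ℝ) := by
    push_cast; linarith
  have hsq : ((v : ℤ) * κ - 1) ^ 2 * (((u * v : ℕ) : ℤ) + 1) = N ^ 2 := by
    have : ((((v : ℤ) * κ - 1) ^ 2 * (((u * v : ℕ) : ℤ) + 1) : ℤ) : ℝ) = ((N ^ 2 : ℤ) : ℝ) := by
      have h1 : ((((v : ℤ) * κ - 1 : ℤ) : ℝ) * m) ^ 2 = ((N : ℤ) : ℝ) ^ 2 := by rw [hkm]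
      rw [mul_pow, hm2] at h1
      push_cast at h1 ⊢
      exact h1
    exact_mod_cast this
  have hdvd : ((v : ℤ) * κ - 1) ^ 2 ∣ N ^ 2 := ⟨_, hsq.symm⟩
  rw [Int.pow_dvd_pow_iff two_ne_zero] at hdvd
  obtain ⟨M, hM⟩ := hdvd
  have hM2 : M ^ 2 = ((u * v : ℕ) : ℤ) + 1 := by
    have h2 : ((v : ℤ) * κ - 1) ^ 2 * (((u * v : ℕ) : ℤ) + 1) = ((v : ℤ) * κ - 1) ^ 2 * M ^ 2 := by
      rw [hsq, hM]; ring
    exact (mul_left_cancel₀ (pow_ne_zero 2 hkne) h2).symm
  have hMabs : |(v : ℤ) * κ - 1| * |M| ≤ (v : ℤ) ^ 2 - 1 := by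
    rw [← abs_mul, ← hM]; exact hNabs
  refine ⟨M.natAbs, ?_, ?_⟩
  · have h2 : ((M.natAbs ^ 2 : ℕ) : ℤ) = ((u * v + 1 : ℕ) : ℤ) := by
      push_cast at hM2 ⊢
      rw [sq_abs, hM2]
    exact_mod_cast h2
  · have hv1' : (1 : ℤ) < v := by exact_mod_cast hv1
    rcases sq_eq_one_iff.1 hκ with h1 | h1
    · left
      refine ⟨by rw [hcκ, h1]; simp, ?_⟩
      rw [h1, mul_one, abs_of_pos (by linarith)] at hMabs
      have : |M| ≤ (v : ℤ) + 1 := by
        by_contra hcon
        push Not at hcon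
        nlinarith
      rw [← Int.natCast_natAbs] at this
      exact_mod_cast this
    · right
      refine ⟨by rw [hcκ, h1]; simp, ?_⟩
      have e1 : |(v : ℤ) * κ - 1| = v + 1 := by
        rw [h1]
        have : (v : ℤ) * -1 - 1 = -(v + 1) := by ring
        rw [this, abs_neg, abs_of_pos (by linarith)]
      rw [e1] at hMabs
      have : |M| + 1 ≤ (v : ℤ) := by
        by_contra hcon
        push Not at hcon
        nlinarith
      rw [← Int.natCast_natAbs] at this
      exact_mod_cast this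

/-- The statement with an integer multiplier. -/
theorem factor_parity' (h : Nat.Coprime u v) (hv1 : 1 < v) (hodd : Odd v) {ψ : ZMod (u * v) → ℂ} (hψ : IsFiducial ψ)
    {e : ℤ} (heu : (e : ZMod u) = 1) (hev : (e : ZMod v) = -1) {c : ℂ}
    (hc : ∀ r, ψ ((e : ZMod (u * v)) * r) = c * ψ r) :
    (∃ M : ℕ, M ^ 2 = u * v + 1 ∧ ((c = 1 ∧ M ≤ v + 1) ∨ (c = -1 ∧ M + 1 ≤ v))) ∧
      (IsPrimePow v → u + 2 = v ∨ (c = 1 ∧ u = v + 2)) := by
  have he : (e : ZMod (u * v)) = 1 - 2 * inc h 1 := by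
    apply (ZMod.chineseRemainder h).injective
    rw [map_intCast, map_sub, map_one, map_mul]
    unfold inc
    have h2 : (ZMod.chineseRemainder h) (2 : ZMod (u * v)) = 2 := map_ofNat _ 2
    rw [RingEquiv.apply_symm_apply, h2]
    ext
    · simp [heu]
    · simp only [Prod.snd_intCast, hev, Prod.snd_sub, Prod.snd_one, Prod.snd_mul, Prod.snd_ofNat]
      ring
  rw [he] at hc
  obtain ⟨M, hM, hcase⟩ := factor_parity h hv1 hodd hψ hc
  refine ⟨⟨M, hM, hcase⟩, fun hpp => ?_⟩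
  have hMv : M ≤ v + 1 := by
    rcases hcase with h1 | h1
    · exact h1.2
    · omega
  rcases arith (Nat.pos_of_ne_zero (NeZero.ne u)) hv1 hodd hM hMv hpp with h1 | ⟨h1, h2⟩
  · exact Or.inl h1
  · right
    refine ⟨?_, h2⟩
    rcases hcase with h3 | h3
    · exact h3.1
    · omega

end Main

end Pool.Agent.Q142.SIC
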