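import Pool.Agent.Q142.SIC.Defs

set_option autoImplicit false

open scoped ComplexConjugate Polynomial

/-!
# Fiducial vectors are never eigenvectors of the parity operator (dimension larger than 3)
-/

namespace Pool.Agent.Q142.SIC

section Root

variable (d : ℕ) [NeZero d]

/-- `z n = exp (2 π i n / (2 d))` -/
noncomputable def z (n : ℤ) : ℂ := ZMod.stdAddChar ((n : ℤ) : ZMod (2 * d))

lemma z_add (n m : ℤ) : z d (n + m) = z d n * z d m := by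
  unfold z; rw [Int.cast_add, AddChar.map_add_eq_mul]

lemma z_zero : z d 0 = 1 := by unfold z; simp

lemma z_neg_mul (n : ℤ) : z d (-n) * z d n = 1 := by
  rw [← z_add]; simp [z_zero]

lemma conj_z (n : ℤ) : conj (z d n) = z d (-n) := by
  unfold z; rw [conj_char]; simp

lemma norm_z (n : ℤ) : ‖z d n‖ = 1 := norm_char _

lemma z_two_mul (n : ℤ) : z d (2 * n) = ZMod.stdAddChar ((n : ℤ) : ZMod d) := by
  unfold z
  rw [ZMod.stdAddChar_coe, ZMod.stdAddChar_coe]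
  congr 1
  have : (d : ℂ) ≠ 0 := Nat.cast_ne_zero.2 (NeZero.ne d)
  push_cast
  field_simp

lemma z_prim : IsPrimitiveRoot (z d 1) (2 * d) := by
  unfold z
  rw [ZMod.stdAddChar_coe]
  have := Complex.isPrimitiveRoot_exp (2 * d) (NeZero.ne (2 * d))
  convert this using 2
  push_cast; ring

lemma z_pow (n : ℕ) : z d 1 ^ n = z d n := by
  induction n with
  | zero => simp [z_zero]
  | succ n ih => rw [pow_succ, ih, ← z_add]; push_cast; rfl

lemma z_pow_mod (n : ℤ) : z d 1 ^ (n % ((2 * d : ℕ) : ℤ)).toNat = z d n := by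
  have h0 : (0 : ℤ) ≤ n % ((2 * d : ℕ) : ℤ) := Int.emod_nonneg _ (by
    have := NeZero.ne (2 * d); exact_mod_cast this)
  rw [z_pow]
  unfold z
  congr 1
  rw [Int.toNat_of_nonneg h0]
  exact_mod_cast (ZMod.intCast_mod n (2 * d))

lemma z_pow_mul (s : ℕ) (n : ℤ) : (z d 1 ^ s) ^ (n % ((2 * d : ℕ) : ℤ)).toNat = z d (s * n) := by
  rw [← pow_mul, mul_comm, pow_mul, z_pow_mod]
  induction s with
  | zero => simp [z_zero]
  | succ s ih => rw [pow_succ, ih, ← z_add]; congr 1; push_cast; ring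

lemma transfer {s : ℕ} (hs : Nat.Coprime s (2 * d)) (P : ℤ[X])
    (h : Polynomial.aeval (z d 1) P = 0) : Polynomial.aeval (z d 1 ^ s) P = 0 := by
  have hint : IsIntegral ℤ (z d 1) := (z_prim d).isIntegral (Nat.pos_of_ne_zero (NeZero.ne (2 * d)))
  have hdvd : minpoly ℤ (z d 1) ∣ P := minpoly.isIntegrallyClosed_dvd hint h
  rw [(z_prim d).minpoly_eq_pow_coprime hs] at hdvd
  obtain ⟨Q, rfl⟩ := hdvd
  rw [map_mul, minpoly.aeval, zero_mul]

end Root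

variable {d : ℕ} [NeZero d]

lemma conj_overlap (ψ : ZMod d → ℂ) (a b : ZMod d) :
    conj (overlap ψ a b) = ZMod.stdAddChar (a * b) * overlap ψ (-a) (-b) := by
  rw [overlap_eq, overlap_eq, map_sum, Finset.mul_sum, ← Equiv.sum_comp (Equiv.subRight a)]
  refine Finset.sum_congr rfl fun j _ => ?_
  simp only [Equiv.subRight_apply, map_mul, Complex.conj_conj, conj_char, sub_add_cancel]
  have : (ZMod.stdAddChar (-(b * (j - a))) : ℂ) = ZMod.stdAddChar (a * b) * ZMod.stdAddChar (-b * j) := by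
    rw [← AddChar.map_add_eq_mul]; congr 1; ring
  rw [this, ← sub_eq_add_neg]; ring

lemma overlap_neg {ψ : ZMod d → ℂ} {π : ℂ} (hπ : conj π * π = 1) (h : ∀ r, ψ (-r) = π * ψ r) (a b : ZMod d) :
    overlap ψ (-a) (-b) = overlap ψ a b := by
  rw [overlap_eq, overlap_eq, ← Equiv.sum_comp (Equiv.neg (ZMod d))]
  refine Finset.sum_congr rfl fun j _ => ?_
  simp only [Equiv.neg_apply]
  rw [← neg_add, h, h, map_mul, neg_mul_neg]
  linear_combination (conj (ψ (j + a)) * ZMod.stdAddChar (b * j) * ψ j) * hπ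

/-- normalized overlaps -/
noncomputable def T (ψ : ZMod d → ℂ) (m : ℝ) (a b : ℤ) : ℂ := m * z d (a * b) * overlap ψ a b

/-- the scaled Gram entries -/
lemma K_expand (ψ : ZMod d → ℂ) (m : ℝ) (x y : ℤ) :
    (d : ℂ) * m * (ψ x * conj (ψ y)) = ∑ b : ZMod d, T ψ m (y - x) b.val * z d (-(b.val * (x + y))) := by
  have h := overlap_inversion ψ ((y - x : ℤ) : ZMod d) (x : ZMod d)
  have e1 : ((x : ZMod d) + ((y - x : ℤ) : ZMod d)) = (y : ZMod d) := by push_cast; ring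
  rw [e1] at h
  have h2 : (d : ℂ) * m * (ψ x * conj (ψ y)) = m * (d * (conj (ψ y) * ψ x)) := by ring
  rw [h2, ← h, Finset.mul_sum]
  refine Finset.sum_congr rfl fun b _ => ?_
  unfold T
  have e2 : z d ((y - x) * (b.val : ℤ)) * z d (-((b.val : ℤ) * (x + y))) = ZMod.stdAddChar (-(b * (x : ZMod d))) := by
    rw [← z_add]
    have : (y - x) * (b.val : ℤ) + -((b.val : ℤ) * (x + y)) = 2 * (-((b.val : ℤ) * x)) := by ring
    rw [this, z_two_mul]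
    congr 1
    push_cast
    rw [ZMod.natCast_zmod_val]
  have e3 : (((b.val : ℤ)) : ZMod d) = b := by
    push_cast; exact ZMod.natCast_zmod_val b
  rw [e3, ← e2]; ring

/-- In the parity symmetric case the normalized overlaps are signs. -/
lemma T_sign {ψ : ZMod d → ℂ} (hψ : IsFiducial ψ) {π : ℂ} (hπ : conj π * π = 1) (h : ∀ r, ψ (-r) = π * ψ r)
    {m : ℝ} (hm : m ^ 2 = (d : ℝ) + 1) (a b : ℤ) (hab : ((a : ZMod d), (b : ZMod d)) ≠ (0, 0)) :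
    T ψ m a b = 1 ∨ T ψ m a b = -1 := by
  have hconj : conj (T ψ m a b) = T ψ m a b := by
    unfold T
    rw [map_mul, map_mul, Complex.conj_ofReal, conj_z, conj_overlap, overlap_neg hπ h]
    have e1 : (ZMod.stdAddChar ((a : ZMod d) * (b : ZMod d)) : ℂ) = z d (a * b) * z d (a * b) := by
      rw [← z_add, ← two_mul, z_two_mul]; push_cast; rfl
    rw [e1]
    linear_combination (m * z d (a * b) * overlap ψ a b) * z_neg_mul d (a * b)
  have hnorm : ‖T ψ m a b‖ ^ 2 = 1 := by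
    unfold T
    rw [norm_mul, norm_mul, norm_z, mul_one, mul_pow, hψ.2 _ _ hab, Complex.norm_real, Real.norm_eq_abs,
      sq_abs, hm]
    have : (d : ℝ) + 1 ≠ 0 := by positivity
    field_simp
  have hsq : T ψ m a b ^ 2 = 1 := by
    have h1 : T ψ m a b * conj (T ψ m a b) = ((‖T ψ m a b‖ ^ 2 : ℝ) : ℂ) := by
      rw [Complex.mul_conj, Complex.normSq_eq_norm_sq]
    rw [hconj, hnorm] at h1
    rw [sq, h1]; simp
  exact sq_eq_one_iff.1 hsq

lemma overlap_zero {ψ : ZMod d → ℂ} (hψ : IsFiducial ψ) : overlap ψ 0 0 = 1 := by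
  rw [overlap_eq]
  have : ∑ j, conj (ψ (j + 0)) * (ZMod.stdAddChar (0 * j) * ψ j) = ((∑ j, ‖ψ j‖ ^ 2 : ℝ) : ℂ) := by
    push_cast
    refine Finset.sum_congr rfl fun j _ => ?_
    simp only [add_zero, zero_mul, AddChar.map_zero_eq_one, one_mul]
    rw [mul_comm, Complex.mul_conj, Complex.normSq_eq_norm_sq]; push_cast; rfl
  rw [this, hψ.1]; simp

lemma exists_ne_zero {ψ : ZMod d → ℂ} (hψ : IsFiducial ψ) : ∃ r, ψ r ≠ 0 := by
  by_contra hcon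
  push Not at hcon
  have := hψ.1
  simp [hcon] at this

/-- a parity eigenvalue is a sign -/
lemma eigen_sign {ψ : ZMod d → ℂ} (hψ : IsFiducial ψ) {c : ℂ} (h : ∀ r, ψ (-r) = c * ψ r) :
    c = 1 ∨ c = -1 := by
  obtain ⟨r, hr⟩ := exists_ne_zero hψ
  have h1 := h (-r)
  rw [neg_neg, h r] at h1
  have h2 : c ^ 2 = 1 := by
    apply mul_right_cancel₀ hr
    rw [one_mul]; nth_rewrite 2 [h1]; ring
  exact sq_eq_one_iff.1 h2

lemma diag_expand {ψ : ZMod d → ℂ} {π : ℤ} (hπ : π ^ 2 = 1) (h : ∀ r, ψ (-r) = π * ψ r) (m : ℝ) (x : ℤ) :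
    (d : ℂ) * m * (‖ψ x‖ ^ 2 : ℝ) = π * ∑ b : ZMod d, T ψ m (2 * x) b.val := by
  have h1 := K_expand ψ m (-x) x
  have e1 : x - -x = 2 * x := by ring
  simp only [e1, neg_add_cancel, mul_zero, neg_zero, z_zero, mul_one] at h1
  rw [← h1, Int.cast_neg, h]
  have hπ' : (π : ℂ) ^ 2 = 1 := by exact_mod_cast hπ
  have h3 : ψ x * conj (ψ x) = ((‖ψ x‖ ^ 2 : ℝ) : ℂ) := by
    rw [Complex.mul_conj, Complex.normSq_eq_norm_sq]
  rw [← h3]
  linear_combination (-(d : ℂ) * m * (ψ x * conj (ψ x))) * hπ'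

lemma conj_pi {π : ℤ} (hπ : π ^ 2 = 1) : conj (π : ℂ) * (π : ℂ) = 1 := by
  have hπ' : (π : ℂ) ^ 2 = 1 := by exact_mod_cast hπ
  rw [map_intCast, ← sq, hπ']

/-- `√(d + 1)` is an integer as soon as some fiducial vector is parity symmetric -/
lemma m_integer {ψ : ZMod d → ℂ} (hψ : IsFiducial ψ) {π : ℤ} (hπ : π ^ 2 = 1) (h : ∀ r, ψ (-r) = π * ψ r)
    (hd : 3 ≤ d) : ∃ M : ℕ, M ^ 2 = d + 1 := by
  obtain ⟨m, hm⟩ : ∃ m : ℝ, m = Real.sqrt ((d : ℝ) + 1) := ⟨_, rfl⟩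
  have hm0 : 0 < m := by rw [hm]; positivity
  have hm2 : m ^ 2 = (d : ℝ) + 1 := by rw [hm, Real.sq_sqrt]; positivity
  have hT : ∀ x b : ZMod d, ∃ n : ℤ, T ψ m (2 * (x.val : ℤ)) b.val
      = (if 2 * x = 0 ∧ b = 0 then (m : ℂ) else 0) + n := by
    intro x b
    have hx : ((2 * (x.val : ℤ) : ℤ) : ZMod d) = 2 * x := by
      push_cast; rw [ZMod.natCast_zmod_val]
    have hb : (((b.val : ℤ)) : ZMod d) = b := by
      push_cast; exact ZMod.natCast_zmod_val b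
    by_cases hc : 2 * x = 0 ∧ b = 0
    · refine ⟨0, ?_⟩
      rw [if_pos hc]
      unfold T
      rw [hx, hb, hc.1, hc.2, overlap_zero hψ]
      simp [z_zero]
    · rw [if_neg hc]
      rcases T_sign hψ (conj_pi hπ) h hm2 (2 * (x.val : ℤ)) b.val (by
        rw [hx, hb]; intro h; exact hc (by simpa using h)) with h1 | h1
      · exact ⟨1, by rw [h1]; simp⟩
      · exact ⟨-1, by rw [h1]; simp⟩
  choose n hn using hT
  have hsum : (d : ℂ) * m = π * (((Finset.univ.filter fun x : ZMod d => 2 * x = 0).card : ℂ) * m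
      + ((∑ x, ∑ b, n x b : ℤ) : ℂ)) := by
    have h1 : ∀ x : ZMod d, (d : ℂ) * m * (‖ψ x‖ ^ 2 : ℝ)
        = π * ((if 2 * x = 0 then (m : ℂ) else 0) + ((∑ b, n x b : ℤ) : ℂ)) := by
      intro x
      have h2 := diag_expand hπ h m (x.val : ℤ)
      have hx : (((x.val : ℤ)) : ZMod d) = x := by
        push_cast; exact ZMod.natCast_zmod_val x
      rw [hx] at h2
      rw [h2]
      congr 1
      simp_rw [hn]
      rw [Finset.sum_add_distrib]
      congr 1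
      · rw [Finset.sum_eq_single 0]
        · simp
        · intro b _ hb; rw [if_neg (fun hh => hb hh.2)]
        · simp
      · push_cast; rfl
    have h3 : (d : ℂ) * m = ∑ x : ZMod d, (d : ℂ) * m * (‖ψ x‖ ^ 2 : ℝ) := by
      rw [← Finset.mul_sum, ← Complex.ofReal_sum, hψ.1]; simp
    rw [h3]
    simp_rw [h1]
    rw [← Finset.mul_sum, Finset.sum_add_distrib]
    congr 1
    congr 1
    · rw [← Finset.sum_filter, Finset.sum_const, nsmul_eq_mul]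
    · push_cast; rfl
  obtain ⟨κ, hκ⟩ : ∃ κ : ℕ, κ = (Finset.univ.filter fun x : ZMod d => 2 * x = 0).card := ⟨_, rfl⟩
  obtain ⟨N, hN⟩ : ∃ N : ℤ, N = ∑ x, ∑ b, n x b := ⟨_, rfl⟩
  rw [← hκ, ← hN] at hsum
  have hκd : κ < d := by
    rw [hκ]
    have h1 : (Finset.univ.filter fun x : ZMod d => 2 * x = 0) ⊂ Finset.univ := by
      rw [Finset.ssubset_univ_iff]
      intro hcon
      have : (1 : ZMod d) ∈ (Finset.univ.filter fun x : ZMod d => 2 * x = 0) := by rw [hcon]; simp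
      rw [Finset.mem_filter] at this
      have h2 : ((2 : ℕ) : ZMod d) = 0 := by simpa using this.2
      rw [ZMod.natCast_eq_zero_iff] at h2
      have := Nat.le_of_dvd (by norm_num) h2
      omega
    have h2 := Finset.card_lt_card h1
    rwa [Finset.card_univ, ZMod.card] at h2
  have hreal : (d : ℝ) * m = π * (κ * m + N) := by exact_mod_cast hsum
  -- integrality
  have hk : (d : ℤ) - π * κ ≠ 0 := by
    rcases sq_eq_one_iff.1 hπ with h1 | h1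
    · rw [h1]; omega
    · rw [h1]; omega
  have hkm : (((d : ℤ) - π * κ : ℤ) : ℝ) * m = ((π * N : ℤ) : ℝ) := by
    push_cast; linarith
  have hsq : ((d : ℤ) - π * κ) ^ 2 * ((d : ℤ) + 1) = (π * N) ^ 2 := by
    have : ((((d : ℤ) - π * κ) ^ 2 * ((d : ℤ) + 1) : ℤ) : ℝ) = (((π * N) ^ 2 : ℤ) : ℝ) := by
      have h1 : ((((d : ℤ) - π * κ : ℤ) : ℝ) * m) ^ 2 = (((π * N : ℤ) : ℝ)) ^ 2 := by rw [hkm]
      rw [mul_pow, hm2] at h1
      push_cast at h1 ⊢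
      exact h1
    exact_mod_cast this
  have hdvd : ((d : ℤ) - π * κ) ^ 2 ∣ (π * N) ^ 2 := ⟨_, hsq.symm⟩
  rw [Int.pow_dvd_pow_iff two_ne_zero] at hdvd
  obtain ⟨M, hM⟩ := hdvd
  refine ⟨M.natAbs, ?_⟩
  have h1 : M ^ 2 = (d : ℤ) + 1 := by
    have h2 : ((d : ℤ) - π * κ) ^ 2 * ((d : ℤ) + 1) = ((d : ℤ) - π * κ) ^ 2 * M ^ 2 := by
      rw [hsq, hM]; ring
    exact (mul_left_cancel₀ (pow_ne_zero 2 hk) h2).symm
  have h2 : ((M.natAbs ^ 2 : ℕ) : ℤ) = ((d + 1 : ℕ) : ℤ) := by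
    push_cast
    rw [sq_abs, h1]
  exact_mod_cast h2

/-- the integer valued normalized overlaps -/
lemma exists_int {ψ : ZMod d → ℂ} (hψ : IsFiducial ψ) {π : ℤ} (hπ : π ^ 2 = 1) (h : ∀ r, ψ (-r) = π * ψ r)
    {M : ℕ} (hM : M ^ 2 = d + 1) (a b : ℤ) : ∃ n : ℤ, T ψ M a b = n := by
  have hm2 : (M : ℝ) ^ 2 = (d : ℝ) + 1 := by exact_mod_cast hM
  by_cases hab : ((a : ZMod d), (b : ZMod d)) = (0, 0)
  · simp only [Prod.mk.injEq] at hab
    obtain ⟨ha, hb⟩ := hab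
    unfold T
    rw [ha, hb, overlap_zero hψ]
    obtain ⟨a', rfl⟩ := (ZMod.intCast_zmod_eq_zero_iff_dvd a d).1 ha
    obtain ⟨b', rfl⟩ := (ZMod.intCast_zmod_eq_zero_iff_dvd b d).1 hb
    have h1 : z d (d * a' * (d * b')) ^ 2 = 1 := by
      rw [sq, ← z_add, ← two_mul, z_two_mul]
      push_cast; simp
    rcases sq_eq_one_iff.1 h1 with h2 | h2
    · exact ⟨M, by rw [h2]; simp⟩
    · exact ⟨-M, by rw [h2]; simp⟩
  · rcases T_sign hψ (conj_pi hπ) h hm2 a b hab with h1 | h1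
    · exact ⟨1, by rw [h1]; simp⟩
    · exact ⟨-1, by rw [h1]; simp⟩

/-- The conjugated Gram entries are again Gram entries, at transformed places. -/
lemma galois {ψ : ZMod d → ℂ} (hψ : IsFiducial ψ) {π : ℤ} (hπ : π ^ 2 = 1) (h : ∀ r, ψ (-r) = π * ψ r)
    {M : ℕ} (hM : M ^ 2 = d + 1) {q : ℕ} (hq : Nat.Coprime (2 * q + 1) (2 * d)) :
    ∃ P : ℤ → ℤ → ℤ[X], ∀ x y : ℤ,
      Polynomial.aeval (z d 1) (P x y) = (d : ℂ) * M * (ψ x * conj (ψ y)) ∧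
      Polynomial.aeval (z d 1 ^ (2 * q + 1)) (P x y)
        = (d : ℂ) * M * (ψ ((x - q * (y - x) : ℤ)) * conj (ψ ((y + q * (y - x) : ℤ)))) := by
  choose t ht using exists_int hψ hπ h hM
  obtain ⟨P, hP⟩ : ∃ P : ℤ → ℤ → ℤ[X], P = fun x y => ∑ b : ZMod d,
    Polynomial.C (t (y - x) b.val) * Polynomial.X ^ ((-((b.val : ℤ) * (x + y))) % ((2 * d : ℕ) : ℤ)).toNat :=
    ⟨_, rfl⟩
  have hev : ∀ x y : ℤ, Polynomial.aeval (z d 1) (P x y) = (d : ℂ) * M * (ψ x * conj (ψ y)) := by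
    intro x y
    have h1 := K_expand ψ M x y
    rw [Complex.ofReal_natCast] at h1
    rw [h1, hP, map_sum]
    refine Finset.sum_congr rfl fun b _ => ?_
    rw [map_mul, Polynomial.aeval_C, map_pow, Polynomial.aeval_X, z_pow_mod, ht]
    simp
  have hevs : ∀ x y : ℤ, Polynomial.aeval (z d 1 ^ (2 * q + 1)) (P x y)
      = ∑ b : ZMod d, T ψ M (y - x) b.val * z d ((2 * q + 1 : ℕ) * (-((b.val : ℤ) * (x + y)))) := by
    intro x y
    rw [hP, map_sum]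
    refine Finset.sum_congr rfl fun b _ => ?_
    rw [map_mul, Polynomial.aeval_C, map_pow, Polynomial.aeval_X, z_pow_mul, ht]
    simp
  have hπ' : (π : ℂ) ^ 2 = 1 := by exact_mod_cast hπ
  refine ⟨P, fun x y => ⟨hev x y, ?_⟩⟩
  -- parity relation and its conjugate
  have hrel : Polynomial.aeval (z d 1) (P (-x) y - Polynomial.C π * P x y) = 0 := by
    rw [map_sub, map_mul, hev, hev, Polynomial.aeval_C, Int.cast_neg, h]
    simp; ring
  have hrel2 := transfer d hq _ hrel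
  rw [map_sub, map_mul, Polynomial.aeval_C, sub_eq_zero, hevs] at hrel2
  -- the other expansion
  have h2 := K_expand ψ M (-(x - q * (y - x))) (y + q * (y - x))
  rw [Complex.ofReal_natCast] at h2
  have h3 : ∑ b : ZMod d, T ψ M (y - -x) b.val * z d ((2 * q + 1 : ℕ) * (-((b.val : ℤ) * (-x + y))))
      = ∑ b : ZMod d, T ψ M (y + q * (y - x) - -(x - q * (y - x))) b.val
        * z d (-((b.val : ℤ) * (-(x - q * (y - x)) + (y + q * (y - x))))) := by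
    refine Finset.sum_congr rfl fun b _ => ?_
    congr 2
    · ring
    · push_cast; ring
  rw [h3, ← h2, Int.cast_neg, h] at hrel2
  have h4 : (π : ℂ) * ((d : ℂ) * M * (π * ψ ((x - q * (y - x) : ℤ)) * conj (ψ ((y + q * (y - x) : ℤ)))))
      = π * ((algebraMap ℤ ℂ) π * Polynomial.aeval (z d 1 ^ (2 * q + 1)) (P x y)) := by rw [hrel2]
  have h5 : (algebraMap ℤ ℂ) π = (π : ℂ) := rfl
  rw [h5] at h4
  linear_combination -h4 + ((d : ℂ) * M * (ψ ((x - q * (y - x) : ℤ)) * conj (ψ ((y + q * (y - x) : ℤ))))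
    - Polynomial.aeval (z d 1 ^ (2 * q + 1)) (P x y)) * hπ'

/-- The conjugated Gram matrix has rank one. -/
lemma rank_one {ψ : ZMod d → ℂ} (hψ : IsFiducial ψ) {π : ℤ} (hπ : π ^ 2 = 1) (h : ∀ r, ψ (-r) = π * ψ r)
    {M : ℕ} (hM : M ^ 2 = d + 1) {q : ℕ} (hq : Nat.Coprime (2 * q + 1) (2 * d)) (x y u w : ZMod d) :
    ψ (x - q * (y - x)) * conj (ψ (y + q * (y - x))) * (ψ (u - q * (w - u)) * conj (ψ (w + q * (w - u))))
      = ψ (x - q * (w - x)) * conj (ψ (w + q * (w - x)))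
        * (ψ (u - q * (y - u)) * conj (ψ (y + q * (y - u)))) := by
  obtain ⟨P, hP⟩ := galois hψ hπ h hM hq
  obtain ⟨x, rfl⟩ := ZMod.intCast_surjective x
  obtain ⟨y, rfl⟩ := ZMod.intCast_surjective y
  obtain ⟨u, rfl⟩ := ZMod.intCast_surjective u
  obtain ⟨w, rfl⟩ := ZMod.intCast_surjective w
  have h1 : Polynomial.aeval (z d 1) (P x y * P u w - P x w * P u y) = 0 := by
    rw [map_sub, map_mul, map_mul, (hP x y).1, (hP u w).1, (hP x w).1, (hP u y).1]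
    ring
  have h2 := transfer d hq _ h1
  rw [map_sub, map_mul, map_mul, (hP x y).2, (hP u w).2, (hP x w).2, (hP u y).2] at h2
  have hd : (d : ℂ) ≠ 0 := Nat.cast_ne_zero.2 (NeZero.ne d)
  have hM0 : (M : ℂ) ≠ 0 := by
    have : M ≠ 0 := by rintro rfl; simp at hM
    exact_mod_cast this
  have h3 : ((d : ℂ) * M) ^ 2 ≠ 0 := pow_ne_zero 2 (mul_ne_zero hd hM0)
  apply mul_left_cancel₀ h3
  push_cast at h2 ⊢
  linear_combination h2

/-- No parity symmetric fiducial vector when `d` has a nontrivial coprime factorization. -/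
lemma no_parity_of_coprime {ψ : ZMod d → ℂ} (hψ : IsFiducial ψ) {π : ℤ} (hπ : π ^ 2 = 1)
    (h : ∀ r, ψ (-r) = π * ψ r) {M : ℕ} (hM : M ^ 2 = d + 1) {u v : ℕ} (hu : 1 < u) (hv : 1 < v)
    (huv : u * v = d) (hcop : Nat.Coprime u v) : False := by
  -- the exponent
  obtain ⟨q0, hq1, hq2⟩ := Nat.chineseRemainder hcop 0 (v - 1)
  have hqu : u ∣ q0 := (Nat.modEq_zero_iff_dvd).1 hq1
  have hqv : v ∣ q0 + 1 := by
    have : q0 + 1 ≡ (v - 1) + 1 [MOD v] := hq2.add_right 1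
    rw [Nat.sub_add_cancel hv.le] at this
    exact (Nat.modEq_zero_iff_dvd).1 (this.trans (by simp [Nat.ModEq]))
  have hcop2 : Nat.Coprime (2 * q0 + 1) (2 * d) := by
    rw [← huv]
    apply Nat.Coprime.mul_right
    · rw [Nat.coprime_mul_left_add_left]; exact Nat.coprime_one_left _
    · apply Nat.Coprime.mul_right
      · obtain ⟨e, he⟩ := hqu
        rw [he]
        have : 2 * (u * e) + 1 = u * (2 * e) + 1 := by ring
        rw [this, Nat.coprime_mul_left_add_left]; exact Nat.coprime_one_left _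
      · obtain ⟨e, he⟩ := hqv
        have he0 : 0 < e := by
          rcases Nat.eq_zero_or_pos e with h0 | h0
          · rw [h0] at he; simp at he
          · exact h0
        have : 2 * q0 + 1 + 1 = v * (2 * e) := by linarith
        have h2 : Nat.Coprime (2 * q0 + 1) (2 * q0 + 1 + 1) := by simp
        rw [this] at h2
        exact Nat.Coprime.coprime_mul_right_right h2
  have hr := rank_one hψ hπ h hM hcop2
  obtain ⟨p, hp⟩ := exists_ne_zero hψ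
  -- arithmetic in `ZMod d`
  have hQ2 : (q0 : ZMod d) * (q0 : ZMod d) = -(q0 : ZMod d) := by
    have h1 : ((q0 * (q0 + 1) : ℕ) : ZMod d) = 0 := by
      rw [ZMod.natCast_eq_zero_iff, ← huv]
      exact Nat.mul_dvd_mul hqu hqv
    push_cast at h1
    linear_combination h1
  have hQv : (q0 : ZMod d) * (v : ZMod d) = 0 := by
    have h1 : ((q0 * v : ℕ) : ZMod d) = 0 := by
      rw [ZMod.natCast_eq_zero_iff, ← huv]
      exact Nat.mul_dvd_mul hqu dvd_rfl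
    exact_mod_cast h1
  have hQu : (q0 : ZMod d) * (u : ZMod d) = -(u : ZMod d) := by
    have h1 : ((u * (q0 + 1) : ℕ) : ZMod d) = 0 := by
      rw [ZMod.natCast_eq_zero_iff, ← huv]
      exact Nat.mul_dvd_mul dvd_rfl hqv
    push_cast at h1
    linear_combination h1
  have hv0 : (v : ZMod d) ≠ 0 := by
    intro h0
    rw [ZMod.natCast_eq_zero_iff, ← huv] at h0
    have := Nat.le_of_dvd (by omega) h0
    nlinarith
  have hu0 : (u : ZMod d) ≠ 0 := by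
    intro h0
    rw [ZMod.natCast_eq_zero_iff, ← huv] at h0
    have := Nat.le_of_dvd (by omega) h0
    nlinarith
  have hminor : ∀ k : ZMod d, ψ k * ψ (k + v + u) = ψ (k + u) * ψ (k + v) := by
    intro k
    have h1 := hr (k - q0 * (p - k)) (p - q0 * (k - p)) (k - q0 * (p - k) + v) (p - q0 * (k - p) + u)
    have e1 : k - (q0 : ZMod d) * (p - k) - q0 * (p - q0 * (k - p) - (k - q0 * (p - k))) = k := by
      linear_combination 2 * (k - p) * hQ2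
    have e2 : p - (q0 : ZMod d) * (k - p) + q0 * (p - q0 * (k - p) - (k - q0 * (p - k))) = p := by
      linear_combination (-2) * (k - p) * hQ2
    have e3 : k - (q0 : ZMod d) * (p - k) + v - q0 * (p - q0 * (k - p) + u - (k - q0 * (p - k) + v))
        = k + v + u := by
      linear_combination 2 * (k - p) * hQ2 + hQv - hQu
    have e4 : p - (q0 : ZMod d) * (k - p) + u + q0 * (p - q0 * (k - p) + u - (k - q0 * (p - k) + v)) = p := by
      linear_combination (-2) * (k - p) * hQ2 - hQv + hQu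
    have e5 : k - (q0 : ZMod d) * (p - k) - q0 * (p - q0 * (k - p) + u - (k - q0 * (p - k))) = k + u := by
      linear_combination 2 * (k - p) * hQ2 - hQu
    have e6 : p - (q0 : ZMod d) * (k - p) + u + q0 * (p - q0 * (k - p) + u - (k - q0 * (p - k))) = p := by
      linear_combination (-2) * (k - p) * hQ2 + hQu
    have e7 : k - (q0 : ZMod d) * (p - k) + v - q0 * (p - q0 * (k - p) - (k - q0 * (p - k) + v)) = k + v := by
      linear_combination 2 * (k - p) * hQ2 + hQv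
    have e8 : p - (q0 : ZMod d) * (k - p) + q0 * (p - q0 * (k - p) - (k - q0 * (p - k) + v)) = p := by
      linear_combination (-2) * (k - p) * hQ2 - hQv
    rw [e1, e2, e3, e4, e5, e6, e7, e8] at h1
    have hp' : conj (ψ p) * conj (ψ p) ≠ 0 := by
      have : conj (ψ p) ≠ 0 := by simpa using hp
      exact mul_ne_zero this this
    apply mul_left_cancel₀ hp'
    linear_combination h1
  have h4 := four_term hψ (v : ZMod d) (u : ZMod d)
  rw [if_neg hv0, if_neg hu0] at h4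
  have h5 : ∑ k : ZMod d, conj (ψ k) * ψ (k + v) * ψ (k + u) * conj (ψ (k + v + u))
      = ((∑ k : ZMod d, ‖ψ k‖ ^ 2 * ‖ψ (k + v + u)‖ ^ 2 : ℝ) : ℂ) := by
    push_cast
    refine Finset.sum_congr rfl fun k _ => ?_
    have e1 : ψ k * conj (ψ k) = (‖ψ k‖ : ℂ) ^ 2 := by
      rw [Complex.mul_conj, Complex.normSq_eq_norm_sq]; push_cast; rfl
    have e2 : ψ (k + v + u) * conj (ψ (k + v + u)) = (‖ψ (k + v + u)‖ : ℂ) ^ 2 := by
      rw [Complex.mul_conj, Complex.normSq_eq_norm_sq]; push_cast; rfl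
    rw [← e1, ← e2]
    linear_combination (-conj (ψ k) * conj (ψ (k + v + u))) * hminor k
  have h6 := four_term hψ 0 ((v : ZMod d) + u)
  have h7 : ∑ k : ZMod d, conj (ψ k) * ψ (k + 0) * ψ (k + (v + u)) * conj (ψ (k + 0 + (v + u)))
      = ((∑ k : ZMod d, ‖ψ k‖ ^ 2 * ‖ψ (k + v + u)‖ ^ 2 : ℝ) : ℂ) := by
    push_cast
    refine Finset.sum_congr rfl fun k _ => ?_
    have e1 : ψ k * conj (ψ k) = (‖ψ k‖ : ℂ) ^ 2 := by
      rw [Complex.mul_conj, Complex.normSq_eq_norm_sq]; push_cast; rfl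
    have e2 : ψ (k + v + u) * conj (ψ (k + v + u)) = (‖ψ (k + v + u)‖ : ℂ) ^ 2 := by
      rw [Complex.mul_conj, Complex.normSq_eq_norm_sq]; push_cast; rfl
    rw [← e1, ← e2, add_zero, ← add_assoc]
    ring
  rw [h5, ← h7, h6, if_pos rfl] at h4
  have hd1 : (d : ℂ) + 1 ≠ 0 := by
    have : ((d + 1 : ℕ) : ℂ) ≠ 0 := Nat.cast_ne_zero.2 (Nat.succ_ne_zero d)
    simpa using this
  rw [div_eq_div_iff hd1 hd1] at h4
  have h8 := mul_right_cancel₀ hd1 h4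
  by_cases h0 : (v : ZMod d) + u = 0
  · rw [if_pos h0] at h8; norm_num at h8
  · rw [if_neg h0] at h8; norm_num at h8

/-- a finite check on eight signs -/
lemma signs (f : Fin 8 → Bool) :
    (if f 0 = f 1 then (1 : ℤ) else -1) + (if f 1 = f 2 then 1 else -1) + (if f 2 = f 3 then 1 else -1)
      + (if f 3 = f 4 then 1 else -1) + (if f 4 = f 5 then 1 else -1) + (if f 5 = f 6 then 1 else -1)
      + (if f 6 = f 7 then 1 else -1) - (if f 0 = f 7 then 1 else -1) ≠ 0 := by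
  generalize f 0 = x0; generalize f 1 = x1; generalize f 2 = x2; generalize f 3 = x3
  generalize f 4 = x4; generalize f 5 = x5; generalize f 6 = x6; generalize f 7 = x7
  revert x0 x1 x2 x3 x4 x5 x6 x7
  decide

/-- In dimension 8 there is no parity symmetric fiducial vector. -/
lemma no_parity_eight {ψ : ZMod 8 → ℂ} (hψ : IsFiducial ψ) {π : ℤ} (hπ : π ^ 2 = 1)
    (h : ∀ r, ψ (-r) = π * ψ r) : False := by
  have hM : (3 : ℕ) ^ 2 = 8 + 1 := by norm_num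
  have hm2 : ((3 : ℕ) : ℝ) ^ 2 = ((8 : ℕ) : ℝ) + 1 := by norm_num
  -- the diagonal entries are integers
  have hdiag : ∀ x : ℤ, ∃ n : ℤ, ((8 : ℕ) : ℂ) * ((3 : ℕ) : ℝ) * (‖ψ x‖ ^ 2 : ℝ) = n := by
    intro x
    have h1 := diag_expand hπ h ((3 : ℕ) : ℝ) x
    choose t ht using exists_int hψ hπ h hM
    simp_rw [ht] at h1
    refine ⟨π * ∑ b : ZMod 8, t (2 * x) b.val, ?_⟩
    rw [h1]; push_cast; rfl
  obtain ⟨n0, hn0⟩ := hdiag 0
  obtain ⟨n1, hn1⟩ := hdiag 1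
  -- the off diagonal entry
  have hs : ∀ i : Fin 8, ∃ b : Bool, T ψ ((3 : ℕ) : ℝ) 1 (i.val : ℤ) = if b then 1 else -1 := by
    intro i
    rcases T_sign hψ (conj_pi hπ) h hm2 1 i.val (by
      intro h0
      have h1 : ((1 : ℤ) : ZMod 8) = 0 := (Prod.mk.inj h0).1
      revert h1; decide) with h1 | h1
    · exact ⟨true, by rw [h1]; simp⟩
    · exact ⟨false, by rw [h1]; simp⟩
  choose f hf using hs
  obtain ⟨t, ht⟩ : ∃ t : Fin 8 → ℤ, t = fun i => if f i then 1 else -1 := ⟨_, rfl⟩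
  have htf : ∀ i : Fin 8, T ψ ((3 : ℕ) : ℝ) 1 (i.val : ℤ) = (t i : ℂ) := by
    intro i; rw [hf, ht]; simp only; split_ifs <;> simp
  have ht2 : ∀ i, t i ^ 2 = 1 := by
    intro i; rw [ht]; simp only; split_ifs <;> simp
  have hprod : ∀ i j, t i * t j = if f i = f j then 1 else -1 := by
    intro i j; rw [ht]; simp only
    cases f i <;> cases f j <;> simp
  have hK := K_expand ψ ((3 : ℕ) : ℝ) 0 1
  have hK2 : ∑ b : ZMod 8, T ψ ((3 : ℕ) : ℝ) (1 - 0) b.val * z 8 (-((b.val : ℤ) * (0 + 1)))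
      = ∑ i : Fin 8, (t i : ℂ) * z 8 (-(i.val : ℤ)) := by
    refine Finset.sum_congr rfl fun b _ => ?_
    have := htf b
    rw [sub_zero, zero_add, mul_one]
    exact congrArg (· * z 8 (-(((b : ZMod 8).val : ℤ)))) this
  rw [hK2, Fin.sum_univ_eight] at hK
  obtain ⟨ζ, hζ⟩ : ∃ ζ : ℂ, ζ = z 8 1 := ⟨_, rfl⟩
  have hζ8 : ζ ^ 8 = -1 := by
    have h1 : (ζ ^ 8) ^ 2 = 1 := by
      rw [← pow_mul, hζ]; exact (z_prim 8).pow_eq_one
    rcases sq_eq_one_iff.1 h1 with h2 | h2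
    · exfalso
      rw [hζ] at h2
      exact (z_prim 8).pow_ne_one_of_pos_of_lt (by norm_num) (by norm_num) h2
    · exact h2
  have hz : ∀ k : ℕ, k ≤ 8 → z 8 (-(k : ℤ)) = -ζ ^ (8 - k) := by
    intro k hk
    have h1 : z 8 (-(k : ℤ)) * z 8 k = 1 := z_neg_mul 8 k
    rw [← z_pow, ← hζ] at h1
    have h2 : ζ ^ (8 - k) * ζ ^ k = -1 := by rw [← pow_add, Nat.sub_add_cancel hk, hζ8]
    have h3 : ζ ^ k ≠ 0 := by
      intro h0; rw [h0, mul_zero] at h1; exact zero_ne_one h1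
    apply mul_right_cancel₀ h3
    rw [h1]; linear_combination h2
  have hz' : ∀ k : ℕ, z 8 (k : ℤ) = ζ ^ k := by
    intro k; rw [← z_pow, ← hζ]
  obtain ⟨t0, ht0⟩ : ∃ x : ℤ, x = t 0 := ⟨_, rfl⟩
  obtain ⟨t1, ht1⟩ : ∃ x : ℤ, x = t 1 := ⟨_, rfl⟩
  obtain ⟨t2, ht2'⟩ : ∃ x : ℤ, x = t 2 := ⟨_, rfl⟩
  obtain ⟨t3, ht3⟩ : ∃ x : ℤ, x = t 3 := ⟨_, rfl⟩
  obtain ⟨t4, ht4⟩ : ∃ x : ℤ, x = t 4 := ⟨_, rfl⟩
  obtain ⟨t5, ht5⟩ : ∃ x : ℤ, x = t 5 := ⟨_, rfl⟩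
  obtain ⟨t6, ht6⟩ : ∃ x : ℤ, x = t 6 := ⟨_, rfl⟩
  obtain ⟨t7, ht7⟩ : ∃ x : ℤ, x = t 7 := ⟨_, rfl⟩
  have hv : (((0 : Fin 8).val : ℤ) = 0) ∧ (((1 : Fin 8).val : ℤ) = (1 : ℕ)) ∧ (((2 : Fin 8).val : ℤ) = (2 : ℕ))
    ∧ (((3 : Fin 8).val : ℤ) = (3 : ℕ)) ∧ (((4 : Fin 8).val : ℤ) = (4 : ℕ)) ∧ (((5 : Fin 8).val : ℤ) = (5 : ℕ))
    ∧ (((6 : Fin 8).val : ℤ) = (6 : ℕ)) ∧ (((7 : Fin 8).val : ℤ) = (7 : ℕ)) := by decide
  obtain ⟨v0, v1, v2, v3, v4, v5, v6, v7⟩ := hv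
  rw [v0, v1, v2, v3, v4, v5, v6, v7, ← ht0, ← ht1, ← ht2', ← ht3, ← ht4, ← ht5, ← ht6, ← ht7, neg_zero,
    z_zero, hz 1 (by norm_num), hz 2 (by norm_num), hz 3 (by norm_num), hz 4 (by norm_num),
    hz 5 (by norm_num), hz 6 (by norm_num), hz 7 (by norm_num)] at hK
  norm_num at hK
  have hKc := congrArg (starRingEnd ℂ) hK
  have hζc : conj ζ = -ζ ^ 7 := by
    have h1 := hz 1 (by norm_num)
    rw [hζ, conj_z, ← hζ]
    exact_mod_cast h1
  simp only [map_add, map_mul, map_neg, map_pow, Complex.conj_conj, hζc, map_intCast, map_ofNat] at hKc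
  have p1 : (-ζ ^ 7) ^ 7 = -ζ := by
    calc (-ζ ^ 7) ^ 7 = -((ζ ^ 8) ^ 6 * ζ) := by ring
      _ = -ζ := by rw [hζ8]; ring
  have p2 : (-ζ ^ 7) ^ 6 = -ζ ^ 2 := by
    calc (-ζ ^ 7) ^ 6 = (ζ ^ 8) ^ 5 * ζ ^ 2 := by ring
      _ = -ζ ^ 2 := by rw [hζ8]; ring
  have p3 : (-ζ ^ 7) ^ 5 = -ζ ^ 3 := by
    calc (-ζ ^ 7) ^ 5 = -((ζ ^ 8) ^ 4 * ζ ^ 3) := by ring
      _ = -ζ ^ 3 := by rw [hζ8]; ring
  have p4 : (-ζ ^ 7) ^ 4 = -ζ ^ 4 := by
    calc (-ζ ^ 7) ^ 4 = (ζ ^ 8) ^ 3 * ζ ^ 4 := by ring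
      _ = -ζ ^ 4 := by rw [hζ8]; ring
  have p5 : (-ζ ^ 7) ^ 3 = -ζ ^ 5 := by
    calc (-ζ ^ 7) ^ 3 = -((ζ ^ 8) ^ 2 * ζ ^ 5) := by ring
      _ = -ζ ^ 5 := by rw [hζ8]; ring
  have p6 : (-ζ ^ 7) ^ 2 = -ζ ^ 6 := by
    calc (-ζ ^ 7) ^ 2 = ζ ^ 8 * ζ ^ 6 := by ring
      _ = -ζ ^ 6 := by rw [hζ8]; ring
  rw [p1, p2, p3, p4, p5, p6] at hKc
  have hAB : ((t0 : ℂ) - (t1 : ℂ) * ζ ^ 7 - (t2 : ℂ) * ζ ^ 6 - (t3 : ℂ) * ζ ^ 5 - (t4 : ℂ) * ζ ^ 4 - (t5 : ℂ) * ζ ^ 3 - (t6 : ℂ) * ζ ^ 2 - (t7 : ℂ) * ζ ^ 1) * ((t0 : ℂ) + (t1 : ℂ) * ζ ^ 1 + (t2 : ℂ) * ζ ^ 2 + (t3 : ℂ) * ζ ^ 3 + (t4 : ℂ) * ζ ^ 4 + (t5 : ℂ) * ζ ^ 5 + (t6 : ℂ) * ζ ^ 6 + (t7 : ℂ) * ζ ^ 7)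
      = ((t0 : ℂ) ^ 2 + (t1 : ℂ) ^ 2 + (t2 : ℂ) ^ 2 + (t3 : ℂ) ^ 2 + (t4 : ℂ) ^ 2 + (t5 : ℂ) ^ 2 + (t6 : ℂ) ^ 2 + (t7 : ℂ) ^ 2) + (((t0 : ℂ) * (t1 : ℂ) + (t1 : ℂ) * (t2 : ℂ) + (t2 : ℂ) * (t3 : ℂ) + (t3 : ℂ) * (t4 : ℂ) + (t4 : ℂ) * (t5 : ℂ) + (t5 : ℂ) * (t6 : ℂ) + (t6 : ℂ) * (t7 : ℂ)) - ((t0 : ℂ) * (t7 : ℂ))) * ζ ^ 1 + (((t0 : ℂ) * (t2 : ℂ) + (t1 : ℂ) * (t3 : ℂ) + (t2 : ℂ) * (t4 : ℂ) + (t3 : ℂ) * (t5 : ℂ) + (t4 : ℂ) * (t6 : ℂ) + (t5 : ℂ) * (t7 : ℂ)) - ((t0 : ℂ) * (t6 : ℂ) + (t1 : ℂ) * (t7 : ℂ))) * ζ ^ 2 + (((t0 : ℂ) * (t3 : ℂ) + (t1 : ℂ) * (t4 : ℂ) + (t2 : ℂ) * (t5 : ℂ) + (t3 : ℂ) * (t6 : ℂ) + (t4 : ℂ) * (t7 : ℂ)) - ((t0 : ℂ) * (t5 : ℂ) + (t1 : ℂ) * (t6 : ℂ) + (t2 : ℂ) * (t7 : ℂ))) * ζ ^ 3 + (((t0 : ℂ) * (t4 : ℂ) + (t1 : ℂ) * (t5 : ℂ) + (t2 : ℂ) * (t6 : ℂ) + (t3 : ℂ) * (t7 : ℂ)) - ((t0 : ℂ) * (t4 : ℂ) + (t1 : ℂ) * (t5 : ℂ) + (t2 : ℂ) * (t6 : ℂ) + (t3 : ℂ) * (t7 : ℂ))) * ζ ^ 4 + (((t0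 : ℂ) * (t5 : ℂ) + (t1 : ℂ) * (t6 : ℂ) + (t2 : ℂ) * (t7 : ℂ)) - ((t0 : ℂ) * (t3 : ℂ) + (t1 : ℂ) * (t4 : ℂ) + (t2 : ℂ) * (t5 : ℂ) + (t3 : ℂ) * (t6 : ℂ) + (t4 : ℂ) * (t7 : ℂ))) * ζ ^ 5 + (((t0 : ℂ) * (t6 : ℂ) + (t1 : ℂ) * (t7 : ℂ)) - ((t0 : ℂ) * (t2 : ℂ) + (t1 : ℂ) * (t3 : ℂ) + (t2 : ℂ) * (t4 : ℂ) + (t3 : ℂ) * (t5 : ℂ) + (t4 : ℂ) * (t6 : ℂ) + (t5 : ℂ) * (t7 : ℂ))) * ζ ^ 6 + (((t0 : ℂ) * (t7 : ℂ)) - ((t0 : ℂ) * (t1 : ℂ) + (t1 : ℂ) * (t2 : ℂ) + (t2 : ℂ) * (t3 : ℂ) + (t3 : ℂ) * (t4 : ℂ) + (t4 : ℂ) * (t5 : ℂ) + (t5 : ℂ) * (t6 : ℂ) + (t6 : ℂ) * (t7 : ℂ))) * ζ ^ 7 := by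
    linear_combination (-((t1 : ℂ) * (t1 : ℂ) * ζ ^ 0 + (t1 : ℂ) * (t2 : ℂ) * ζ ^ 1 + (t1 : ℂ) * (t3 : ℂ) * ζ ^ 2 + (t1 : ℂ) * (t4 : ℂ) * ζ ^ 3 + (t1 : ℂ) * (t5 : ℂ) * ζ ^ 4 + (t1 : ℂ) * (t6 : ℂ) * ζ ^ 5 + (t1 : ℂ) * (t7 : ℂ) * ζ ^ 6 + (t2 : ℂ) * (t2 : ℂ) * ζ ^ 0 + (t2 : ℂ) * (t3 : ℂ) * ζ ^ 1 + (t2 : ℂ) * (t4 : ℂ) * ζ ^ 2 + (t2 : ℂ) * (t5 : ℂ) * ζ ^ 3 + (t2 : ℂ) * (t6 : ℂ) * ζ ^ 4 + (t2 : ℂ) * (t7 : ℂ) * ζ ^ 5 + (t3 : ℂ) * (t3 : ℂ) * ζ ^ 0 + (t3 : ℂ) * (t4 : ℂ) * ζ ^ 1 + (t3 : ℂ) * (t5 : ℂ) * ζ ^ 2 + (t3 : ℂ) * (t6 : ℂ) * ζ ^ 3 + (t3 : ℂ) * (t7 : ℂ) * ζ ^ 4 + (t4 : ℂ) * (t4 : ℂ) * ζ ^ 0 + (t4 : ℂ) * (t5 : ℂ) * ζ ^ 1 + (t4 : ℂ) * (t6 : ℂ) * ζ ^ 2 + (t4 : ℂ) * (t7 : ℂ) * ζ ^ 3 + (t5 : ℂ) * (t5 : ℂ) * ζ ^ 0 + (t5 : ℂ) * (t6 : ℂ) * ζ ^ 1 + (t5 : ℂ) * (t7 : ℂ) * ζ ^ 2 + (t6 : ℂ) * (t6 : ℂ) * ζ ^ 0 + (t6 : ℂ) * (t7 : ℂ) * ζ ^ 1 + (t7 : ℂ) * (t7 : ℂ) * ζ ^ 0)) * hζ8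
  have hn : ((n0 * n1 : ℤ) : ℂ) = ((t0 : ℂ) - (t1 : ℂ) * ζ ^ 7 - (t2 : ℂ) * ζ ^ 6 - (t3 : ℂ) * ζ ^ 5 - (t4 : ℂ) * ζ ^ 4 - (t5 : ℂ) * ζ ^ 3 - (t6 : ℂ) * ζ ^ 2 - (t7 : ℂ) * ζ ^ 1) * ((t0 : ℂ) + (t1 : ℂ) * ζ ^ 1 + (t2 : ℂ) * ζ ^ 2 + (t3 : ℂ) * ζ ^ 3 + (t4 : ℂ) * ζ ^ 4 + (t5 : ℂ) * ζ ^ 5 + (t6 : ℂ) * ζ ^ 6 + (t7 : ℂ) * ζ ^ 7) := by
    have e1 : ψ 0 * conj (ψ 0) = ((‖ψ 0‖ ^ 2 : ℝ) : ℂ) := by
      rw [Complex.mul_conj, Complex.normSq_eq_norm_sq]
    have e2 : ψ 1 * conj (ψ 1) = ((‖ψ 1‖ ^ 2 : ℝ) : ℂ) := by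
      rw [Complex.mul_conj, Complex.normSq_eq_norm_sq]
    have hn0' : 24 * (ψ 0 * conj (ψ 0)) = (n0 : ℂ) := by
      rw [← hn0, Int.cast_zero, e1]; push_cast; ring
    have hn1' : 24 * (ψ 1 * conj (ψ 1)) = (n1 : ℂ) := by
      rw [← hn1, Int.cast_one, e2]; push_cast; ring
    have h1 : ((t0 : ℂ) - (t1 : ℂ) * ζ ^ 7 - (t2 : ℂ) * ζ ^ 6 - (t3 : ℂ) * ζ ^ 5 - (t4 : ℂ) * ζ ^ 4 - (t5 : ℂ) * ζ ^ 3 - (t6 : ℂ) * ζ ^ 2 - (t7 : ℂ) * ζ ^ 1) = 24 * (ψ 0 * conj (ψ 1)) := by rw [hK]; ring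
    have h2 : ((t0 : ℂ) + (t1 : ℂ) * ζ ^ 1 + (t2 : ℂ) * ζ ^ 2 + (t3 : ℂ) * ζ ^ 3 + (t4 : ℂ) * ζ ^ 4 + (t5 : ℂ) * ζ ^ 5 + (t6 : ℂ) * ζ ^ 6 + (t7 : ℂ) * ζ ^ 7) = 24 * (conj (ψ 0) * ψ 1) := by rw [hKc]; ring
    rw [h1, h2, Int.cast_mul, ← hn0', ← hn1']; ring
  obtain ⟨G, hG⟩ : ∃ G : ℤ[X], G = Polynomial.C (t0 ^ 2 + t1 ^ 2 + t2 ^ 2 + t3 ^ 2 + t4 ^ 2 + t5 ^ 2 + t6 ^ 2 + t7 ^ 2 - n0 * n1) * Polynomial.X ^ 0 + Polynomial.C ((t0 * t1 + t1 * t2 + t2 * t3 + t3 * t4 + t4 * t5 + t5 * t6 + t6 * t7) - (t0 * t7)) * Polynomial.X ^ 1 + Polynomial.C ((t0 * t2 + t1 * t3 + t2 * t4 + t3 * t5 + t4 * t6 + t5 * t7) - (t0 * t6 + t1 * t7)) * Polynomial.X ^ 2 + Polynomial.C ((t0 * t3 + t1 * t4 + t2 * t5 + t3 * t6 + t4 * t7) - (t0 * t5 + t1 * t6 + t2 * t7)) * Polynomial.X ^ 3 + Polynomial.C ((t0 * t4 + t1 * t5 + t2 * t6 + t3 * t7) - (t0 * t4 + t1 * t5 + t2 * t6 + t3 * t7)) * Polynomial.X ^ 4 + Polynomial.C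 ((t0 * t5 + t1 * t6 + t2 * t7) - (t0 * t3 + t1 * t4 + t2 * t5 + t3 * t6 + t4 * t7)) * Polynomial.X ^ 5 + Polynomial.C ((t0 * t6 + t1 * t7) - (t0 * t2 + t1 * t3 + t2 * t4 + t3 * t5 + t4 * t6 + t5 * t7)) * Polynomial.X ^ 6 + Polynomial.C ((t0 * t7) - (t0 * t1 + t1 * t2 + t2 * t3 + t3 * t4 + t4 * t5 + t5 * t6 + t6 * t7)) * Polynomial.X ^ 7 := ⟨_, rfl⟩
  have hGz : Polynomial.aeval ζ G = 0 := by
    rw [hG]
    simp only [map_add, map_mul, map_pow, Polynomial.aeval_X, Polynomial.aeval_C]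
    simp only [eq_intCast]
    push_cast at hn ⊢
    rw [hAB] at hn
    linear_combination -hn
  have hint : IsIntegral ℤ ζ := by
    rw [hζ]; exact (z_prim 8).isIntegral (by norm_num)
  have hdvd : minpoly ℤ ζ ∣ G := minpoly.isIntegrallyClosed_dvd hint hGz
  have hdeg : (minpoly ℤ ζ).natDegree = 8 := by
    rw [hζ, ← Polynomial.cyclotomic_eq_minpoly (z_prim 8) (by norm_num), Polynomial.natDegree_cyclotomic]
    decide
  have hGdeg : G.natDegree < 8 := by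
    have : G.natDegree ≤ 7 := by
      rw [hG]; compute_degree
    omega
  have hG0 : G = 0 := Polynomial.eq_zero_of_dvd_of_natDegree_lt hdvd (by rw [hdeg]; exact hGdeg)
  have hc1 : G.coeff 1 = ((t0 * t1 + t1 * t2 + t2 * t3 + t3 * t4 + t4 * t5 + t5 * t6 + t6 * t7) - (t0 * t7)) := by
    rw [hG]
    simp only [Polynomial.coeff_add, Polynomial.coeff_C_mul, Polynomial.coeff_X_pow]
    norm_num
  rw [hG0, Polynomial.coeff_zero] at hc1
  rw [ht0, ht1, ht2', ht3, ht4, ht5, ht6, ht7] at hc1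
  simp only [hprod] at hc1
  exact signs f hc1.symm

/-- No fiducial vector in dimension larger than 3 is an eigenvector of the parity operator. -/
lemma no_parity (hd : 3 < d) {ψ : ZMod d → ℂ} (hψ : IsFiducial ψ) {c : ℂ} (h : ∀ r, ψ (-r) = c * ψ r) :
    False := by
  obtain ⟨π, hπ, hc⟩ : ∃ π : ℤ, π ^ 2 = 1 ∧ c = π := by
    rcases eigen_sign hψ h with h1 | h1
    · exact ⟨1, by norm_num, by rw [h1]; simp⟩
    · exact ⟨-1, by norm_num, by rw [h1]; simp⟩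
  rw [hc] at h
  obtain ⟨M, hM⟩ := m_integer hψ hπ h (by omega)
  have hM3 : 3 ≤ M := by
    by_contra hcon
    push Not at hcon
    have : M ^ 2 ≤ 2 ^ 2 := Nat.pow_le_pow_left (by omega) 2
    omega
  rcases Nat.even_or_odd' M with ⟨j, hj | hj⟩
  · -- M even
    obtain ⟨i, rfl⟩ : ∃ i, j = i + 1 := ⟨j - 1, by omega⟩
    have hi : 1 ≤ i := by omega
    have hfac : (2 * i + 1) * (2 * i + 3) = d := by
      have : (2 * (i + 1)) ^ 2 = d + 1 := by rw [← hj]; exact hM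
      nlinarith
    have hcop : Nat.Coprime (2 * i + 1) (2 * i + 3) := by
      have : 2 * i + 3 = 2 + (2 * i + 1) := by ring
      rw [this, Nat.coprime_add_self_right]
      exact Nat.coprime_two_right.2 ⟨i, rfl⟩
    exact no_parity_of_coprime hψ hπ h hM (by omega) (by omega) hfac hcop
  · -- M odd
    have hfac : 4 * (j * (j + 1)) = d := by
      have : (2 * j + 1) ^ 2 = d + 1 := by rw [← hj]; exact hM
      nlinarith
    have hj1 : 1 ≤ j := by omega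
    rcases Nat.eq_or_lt_of_le hj1 with h1 | h1
    · subst h1
      have : d = 8 := by omega
      subst this
      exact no_parity_eight hψ hπ h
    · rcases Nat.even_or_odd j with hev | hod
      · have hod' : Odd (j + 1) := hev.add_one
        have hcop : Nat.Coprime (j + 1) (4 * j) := by
          apply Nat.Coprime.mul_right
          · have : Nat.Coprime (j + 1) 2 := (Nat.coprime_two_right).2 hod'
            exact (Nat.Coprime.pow_right 2 this)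
          · simp
        exact no_parity_of_coprime hψ hπ h hM (u := j + 1) (v := 4 * j) (by omega) (by omega)
          (by rw [← hfac]; ring) hcop
      · have hcop : Nat.Coprime j (4 * (j + 1)) := by
          apply Nat.Coprime.mul_right
          · have : Nat.Coprime j 2 := (Nat.coprime_two_right).2 hod
            exact (Nat.Coprime.pow_right 2 this)
          · simp
        exact no_parity_of_coprime hψ hπ h hM (u := j) (v := 4 * (j + 1)) (by omega) (by omega)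
          (by rw [← hfac]; ring) hcop

/-- an element that is not a double is detected by a character of order two -/
lemma exists_half {x : ZMod d} (hx : ¬ ∃ y, x = 2 * y) :
    ∃ h : ZMod d, h ≠ 0 ∧ h + h = 0 ∧ (ZMod.stdAddChar (h * x) : ℂ) = -1 := by
  rcases Nat.even_or_odd' d with ⟨k, hk | hk⟩
  · have hk0 : 0 < k := by
      have := NeZero.ne d
      omega
    refine ⟨(k : ZMod d), ?_, ?_, ?_⟩
    · intro h0
      rw [ZMod.natCast_eq_zero_iff] at h0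
      have := Nat.le_of_dvd hk0 h0
      omega
    · have : ((2 * k : ℕ) : ZMod d) = 0 := by rw [ZMod.natCast_eq_zero_iff, hk]
      push_cast at this
      linear_combination this
    · have h2 : ((2 * k : ℕ) : ZMod d) = 0 := by rw [ZMod.natCast_eq_zero_iff, hk]
      push_cast at h2
      have hsq : (ZMod.stdAddChar ((k : ZMod d) * x) : ℂ) ^ 2 = 1 := by
        rw [sq, ← AddChar.map_add_eq_mul]
        have : (k : ZMod d) * x + k * x = 0 := by linear_combination x * h2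
        rw [this, AddChar.map_zero_eq_one]
      rcases sq_eq_one_iff.1 hsq with h3 | h3
      · exfalso
        rw [← AddChar.map_zero_eq_one (ZMod.stdAddChar (N := d))] at h3
        have h4 := ZMod.injective_stdAddChar h3
        rw [← ZMod.natCast_zmod_val x] at h4
        have h5 : ((k * x.val : ℕ) : ZMod d) = 0 := by push_cast; exact h4
        rw [ZMod.natCast_eq_zero_iff] at h5
        have h6 : 2 ∣ x.val := by
          obtain ⟨e, he⟩ := h5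
          refine ⟨e, ?_⟩
          apply Nat.eq_of_mul_eq_mul_left hk0
          rw [he]; nth_rewrite 1 [hk]; ring
        obtain ⟨e, he⟩ := h6
        apply hx
        refine ⟨(e : ZMod d), ?_⟩
        rw [← ZMod.natCast_zmod_val x, he]; push_cast; ring
      · exact h3
  · exfalso
    apply hx
    refine ⟨(k + 1 : ℕ) * x, ?_⟩
    have h1 : ((2 * (k + 1) : ℕ) : ZMod d) = 1 := by
      have : 2 * (k + 1) = d + 1 := by omega
      rw [this]; push_cast; simp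
    push_cast at h1 ⊢
    linear_combination (-x) * h1

/-- No fiducial vector in dimension larger than 3 is an eigenvector of a displaced parity operator. -/
theorem no_displaced_parity (hd : 3 < d) {ψ : ZMod d → ℂ} (hψ : IsFiducial ψ) (a b : ZMod d) (c : ℂ) :
    displace a b (fun r => ψ (-r)) ≠ fun r => c * ψ r := by
  intro hfun
  have hd0 : (0 : ℝ) < (d : ℝ) + 1 := by positivity
  have H : ∀ r, (ZMod.stdAddChar (b * (r - a)) : ℂ) * ψ (a - r) = c * ψ r := by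
    intro r
    have := congrFun hfun r
    unfold displace at this
    simpa using this
  have hcn : ‖c‖ ^ 2 = 1 := by
    have h1 : ∑ r, ‖(ZMod.stdAddChar (b * (r - a)) : ℂ) * ψ (a - r)‖ ^ 2 = ∑ r, ‖c * ψ r‖ ^ 2 :=
      Finset.sum_congr rfl fun r _ => by rw [H]
    simp_rw [norm_mul, mul_pow, norm_char, one_pow, one_mul] at h1
    rw [← Finset.mul_sum, hψ.1, mul_one] at h1
    rw [← h1, ← hψ.1]
    exact Equiv.sum_comp (Equiv.subLeft a) (fun r => ‖ψ r‖ ^ 2)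
  have hcc : conj c * c = 1 := by
    rw [mul_comm, Complex.mul_conj, Complex.normSq_eq_norm_sq, hcn]; simp
  by_cases hA : ∃ a', a = 2 * a'
  · by_cases hB : ∃ b', b = 2 * b'
    · obtain ⟨a', rfl⟩ := hA
      obtain ⟨b', rfl⟩ := hB
      obtain ⟨φ, hφ⟩ : ∃ φ : ZMod d → ℂ, φ = fun r => ZMod.stdAddChar (-b' * r) * ψ (r + a') := ⟨_, rfl⟩
      have hov : ∀ x y, overlap φ x y = ZMod.stdAddChar (b' * x - y * a') * overlap ψ x y := by
        intro x y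
        rw [overlap_eq, overlap_eq, Finset.mul_sum, ← Equiv.sum_comp (Equiv.subRight a')]
        refine Finset.sum_congr rfl fun j _ => ?_
        simp only [hφ, Equiv.subRight_apply, map_mul, conj_char]
        have e0 : j - a' + x + a' = j + x := by ring
        have e1 : (ZMod.stdAddChar (-(-b' * (j - a' + x))) : ℂ) * ZMod.stdAddChar (y * (j - a'))
            * ZMod.stdAddChar (-b' * (j - a')) = ZMod.stdAddChar (b' * x - y * a') * ZMod.stdAddChar (y * j) := by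
          rw [← AddChar.map_add_eq_mul, ← AddChar.map_add_eq_mul, ← AddChar.map_add_eq_mul]
          congr 1; ring
        rw [e0, sub_add_cancel]
        linear_combination conj (ψ (j + x)) * ψ j * e1
      have hφf : IsFiducial φ := by
        constructor
        · have e5 : ∑ j, ‖φ j‖ ^ 2 = ∑ j, ‖ψ (j + a')‖ ^ 2 :=
            Finset.sum_congr rfl fun j _ => by rw [hφ]; simp only [norm_mul, norm_char, one_mul]
          rw [e5]
          exact (Equiv.sum_comp (Equiv.addRight a') (fun j => ‖ψ j‖ ^ 2)).trans hψ.1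
        · intro x y hxy
          rw [hov, norm_mul, norm_char, one_mul, hψ.2 x y hxy]
      refine no_parity hd hφf (c := c * ZMod.stdAddChar (2 * b' * a')) fun r => ?_
      have h1 := H (r + a')
      have e2 : 2 * a' - (r + a') = -r + a' := by ring
      rw [e2] at h1
      simp only [hφ]
      have e3 : (ZMod.stdAddChar (2 * b' * (r + a' - 2 * a')) : ℂ)
          * ZMod.stdAddChar (-(2 * b' * (r + a' - 2 * a'))) = 1 := by
        rw [← AddChar.map_add_eq_mul]; simp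
      have e4 : (ZMod.stdAddChar (-b' * -r) : ℂ) * ZMod.stdAddChar (-(2 * b' * (r + a' - 2 * a')))
          = ZMod.stdAddChar (2 * b' * a') * ZMod.stdAddChar (-b' * r) := by
        rw [← AddChar.map_add_eq_mul, ← AddChar.map_add_eq_mul]
        congr 1; ring
      linear_combination (ZMod.stdAddChar (-b' * -r) : ℂ) * ZMod.stdAddChar (-(2 * b' * (r + a' - 2 * a'))) * h1
        - (ZMod.stdAddChar (-b' * -r) : ℂ) * ψ (-r + a') * e3 + c * ψ (r + a') * e4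
    · obtain ⟨h, hh0, hh2, hhe⟩ := exists_half hB
      have hz : overlap ψ h 0 = 0 := by
        have e1 : overlap ψ h 0 = -overlap ψ h 0 := by
          conv_lhs => rw [overlap_eq]
          rw [overlap_eq, ← Finset.sum_neg_distrib, ← Equiv.sum_comp (Equiv.subLeft a)]
          refine Finset.sum_congr rfl fun j _ => ?_
          simp only [Equiv.subLeft_apply, zero_mul, AddChar.map_zero_eq_one, one_mul]
          have h1 := H j
          have h2 := H (j + h)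
          have e2 : a - (j + h) = a - j + h := by
            linear_combination (-1 : ZMod d) * hh2
          rw [e2] at h2
          have h3 := congrArg (starRingEnd ℂ) h2
          rw [map_mul (starRingEnd ℂ), map_mul (starRingEnd ℂ), conj_char] at h3
          have e3 : (ZMod.stdAddChar (-(b * (j + h - a))) : ℂ) * ZMod.stdAddChar (b * (j - a)) = -1 := by
            rw [← AddChar.map_add_eq_mul, ← hhe]
            congr 1
            linear_combination (-b) * hh2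
          linear_combination (-(ZMod.stdAddChar (-(b * (j + h - a))) : ℂ)) * conj (ψ (a - j + h)) * h1
            - c * ψ j * h3 + conj (ψ (a - j + h)) * ψ (a - j) * e3 - conj (ψ (j + h)) * ψ j * hcc
        have : (2 : ℂ) * overlap ψ h 0 = 0 := by linear_combination e1
        simpa using this
      have h1 := hψ.2 h 0 (by intro h2; exact hh0 (Prod.mk.inj h2).1)
      rw [hz, norm_zero] at h1
      have : (0 : ℝ) < 1 / ((d : ℝ) + 1) := by positivity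
      rw [← h1] at this
      norm_num at this
  · obtain ⟨h, hh0, hh2, hhe⟩ := exists_half hA
    have hz : overlap ψ 0 h = 0 := by
      have e1 : overlap ψ 0 h = -overlap ψ 0 h := by
        conv_lhs => rw [overlap_eq]
        rw [overlap_eq, ← Finset.sum_neg_distrib, ← Equiv.sum_comp (Equiv.subLeft a)]
        refine Finset.sum_congr rfl fun j _ => ?_
        simp only [Equiv.subLeft_apply, add_zero]
        have h1 := H j
        have h3 := congrArg (starRingEnd ℂ) h1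
        rw [map_mul (starRingEnd ℂ), map_mul (starRingEnd ℂ), conj_char] at h3
        have e3 : (ZMod.stdAddChar (-(b * (j - a))) : ℂ) * ZMod.stdAddChar (b * (j - a)) = 1 := by
          rw [← AddChar.map_add_eq_mul]; simp
        have e4 : (ZMod.stdAddChar (h * (a - j)) : ℂ) = -ZMod.stdAddChar (h * j) := by
          have : h * (a - j) = h * a + h * j := by linear_combination (-j) * hh2
          rw [this, AddChar.map_add_eq_mul, hhe]; ring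
        rw [e4]
        linear_combination (-(ZMod.stdAddChar (h * j) : ℂ)) * ((ZMod.stdAddChar (-(b * (j - a))) : ℂ)
          * conj (ψ (a - j)) * h1 + c * ψ j * h3 - conj (ψ (a - j)) * ψ (a - j) * e3 + conj (ψ j) * ψ j * hcc)
      have : (2 : ℂ) * overlap ψ 0 h = 0 := by linear_combination e1
      simpa using this
    have h1 := hψ.2 0 h (by intro h2; exact hh0 (Prod.mk.inj h2).2)
    rw [hz, norm_zero] at h1
    have : (0 : ℝ) < 1 / ((d : ℝ) + 1) := by positivity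
    rw [← h1] at this
    norm_num at this

end Pool.Agent.Q142.SIC
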