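import Pool.Agent.Q142.SIC.Defs

set_option autoImplicit false

open scoped ComplexConjugate

/-!
# Approximate fiducial vectors in prime dimensions
-/

namespace Pool.Agent.Q142.SIC

variable {p : ℕ} [hp : Fact p.Prime]

lemma quad_gauss (hp2 : p ≠ 2) {α : ZMod p} (hα : α ≠ 0) (β γ : ZMod p) :
    ‖∑ j : ZMod p, (ZMod.stdAddChar (α * j ^ 2 + β * j + γ) : ℂ)‖ ^ 2 = p := by
  have h2 : (2 : ZMod p) ≠ 0 := by
    intro h
    have : ((2 : ℕ) : ZMod p) = 0 := by exact_mod_cast h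
    rw [ZMod.natCast_eq_zero_iff] at this
    exact hp2 ((Nat.prime_dvd_prime_iff_eq hp.out Nat.prime_two).1 this)
  have key : ((‖∑ j : ZMod p, (ZMod.stdAddChar (α * j ^ 2 + β * j + γ) : ℂ)‖ ^ 2 : ℝ) : ℂ) = (p : ℝ) := by
    have h1 : ((‖∑ j : ZMod p, (ZMod.stdAddChar (α * j ^ 2 + β * j + γ) : ℂ)‖ ^ 2 : ℝ) : ℂ)
        = (∑ j : ZMod p, (ZMod.stdAddChar (α * j ^ 2 + β * j + γ) : ℂ)) *
          conj (∑ j : ZMod p, (ZMod.stdAddChar (α * j ^ 2 + β * j + γ) : ℂ)) := by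
      rw [Complex.mul_conj, Complex.normSq_eq_norm_sq]
    rw [h1, map_sum, Finset.mul_sum]
    have h3 : ∀ k : ZMod p, (∑ j : ZMod p, (ZMod.stdAddChar (α * j ^ 2 + β * j + γ) : ℂ)) *
        conj (ZMod.stdAddChar (α * k ^ 2 + β * k + γ) : ℂ)
        = ∑ h : ZMod p, (ZMod.stdAddChar (α * h ^ 2 + β * h) : ℂ) * ZMod.stdAddChar (k * (2 * α * h)) := by
      intro k
      rw [conj_char, Finset.sum_mul, ← Equiv.sum_comp (Equiv.addRight k)]
      refine Finset.sum_congr rfl fun h _ => ?_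
      rw [← AddChar.map_add_eq_mul, ← AddChar.map_add_eq_mul]
      congr 1
      simp only [Equiv.coe_addRight]
      ring
    simp_rw [h3]
    rw [Finset.sum_comm]
    simp_rw [← Finset.mul_sum, sum_char]
    rw [Finset.sum_eq_single 0]
    · simp
    · intro h _ hh
      rw [if_neg (mul_ne_zero (mul_ne_zero h2 hα) hh)]; simp
    · simp
  exact_mod_cast key

/-- the cubic vector with one modified coordinate -/
noncomputable def vec (p : ℕ) [Fact p.Prime] (c s : ℝ) : ZMod p → ℂ :=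
  fun j => c * ZMod.stdAddChar (j ^ 3) + if j = 0 then ((s - c : ℝ) : ℂ) else 0

lemma vec_overlap_ne (c s : ℝ) {a : ZMod p} (ha : a ≠ 0) (b : ZMod p) :
    overlap (vec p c s) a b
      = c ^ 2 * (∑ j : ZMod p, (ZMod.stdAddChar (-3 * a * j ^ 2 + (b - 3 * a ^ 2) * j + -a ^ 3) : ℂ))
        + c * ((s - c : ℝ) : ℂ) * (ZMod.stdAddChar (-a ^ 3) + ZMod.stdAddChar (-(a * b) - a ^ 3)) := by
  rw [overlap_eq]
  have h : ∀ j : ZMod p, conj (vec p c s (j + a)) * (ZMod.stdAddChar (b * j) * vec p c s j)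
      = c ^ 2 * (ZMod.stdAddChar (-3 * a * j ^ 2 + (b - 3 * a ^ 2) * j + -a ^ 3) : ℂ)
        + ((if j = 0 then c * ((s - c : ℝ) : ℂ) * ZMod.stdAddChar (-a ^ 3) else 0)
        + (if j = -a then c * ((s - c : ℝ) : ℂ) * ZMod.stdAddChar (-(a * b) - a ^ 3) else 0)) := by
    intro j
    unfold vec
    have e1 : (ZMod.stdAddChar (-3 * a * j ^ 2 + (b - 3 * a ^ 2) * j + -a ^ 3) : ℂ)
        = ZMod.stdAddChar (-(j + a) ^ 3) * ZMod.stdAddChar (b * j) * ZMod.stdAddChar (j ^ 3) := by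
      rw [← AddChar.map_add_eq_mul, ← AddChar.map_add_eq_mul]
      congr 1; ring
    rw [e1]
    simp only [map_add, map_mul, Complex.conj_ofReal, conj_char]
    by_cases h0 : j = 0
    · subst h0
      have h1 : ¬ ((0 : ZMod p) + a = 0) := by simpa using ha
      have h2 : ¬ ((0 : ZMod p) = -a) := by
        intro h; apply ha; rw [eq_neg_iff_add_eq_zero, zero_add] at h; exact h
      simp only [if_neg h2]
      simp [ha]
      ring
    · by_cases h1 : j = -a
      · subst h1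
        have h2 : ¬ (-a = (0 : ZMod p)) := h0
        have e2 : (ZMod.stdAddChar (-(a * b) - a ^ 3) : ℂ)
            = ZMod.stdAddChar (b * -a) * ZMod.stdAddChar ((-a) ^ 3) := by
          rw [← AddChar.map_add_eq_mul]
          congr 1; ring
        rw [e2]
        simp only [neg_add_cancel, if_neg h2, if_true, Complex.conj_ofReal]
        simp
        ring
      · have h2 : ¬ (j + a = 0) := by rwa [add_eq_zero_iff_eq_neg]
        simp only [if_neg h0, if_neg h1, if_neg h2, map_zero, add_zero]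
        ring
  simp_rw [h]
  rw [Finset.sum_add_distrib, Finset.sum_add_distrib, ← Finset.mul_sum]
  simp
  ring

lemma vec_overlap_zero (c s : ℝ) (b : ZMod p) :
    overlap (vec p c s) 0 b
      = c ^ 2 * (if b = 0 then (p : ℂ) else 0) + ((s ^ 2 - c ^ 2 : ℝ) : ℂ) := by
  rw [overlap_eq]
  have h : ∀ j : ZMod p, conj (vec p c s (j + 0)) * (ZMod.stdAddChar (b * j) * vec p c s j)
      = c ^ 2 * (ZMod.stdAddChar (j * b) : ℂ) + (if j = 0 then ((s ^ 2 - c ^ 2 : ℝ) : ℂ) else 0) := by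
    intro j
    unfold vec
    simp only [map_add, map_mul, Complex.conj_ofReal, conj_char, add_zero]
    by_cases h0 : j = 0
    · subst h0
      simp
      ring
    · simp only [if_neg h0, map_zero, add_zero]
      have : (ZMod.stdAddChar (-j ^ 3) : ℂ) * ZMod.stdAddChar (j ^ 3) = 1 := by
        rw [← AddChar.map_add_eq_mul]; simp
      rw [mul_comm b j]
      linear_combination (c : ℂ) ^ 2 * ZMod.stdAddChar (j * b) * this
  simp_rw [h]
  rw [Finset.sum_add_distrib, ← Finset.mul_sum, sum_char]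
  simp

lemma exists_approx (p : ℕ) [hp : Fact p.Prime] (h5 : 5 ≤ p) :
    ∃ ψ : ZMod p → ℂ, ∑ j, ‖ψ j‖ ^ 2 = 1 ∧
      (∀ b : ZMod p, b ≠ 0 → ‖overlap ψ 0 b‖ ^ 2 = 1 / ((p : ℝ) + 1)) ∧
      ∀ a b : ZMod p, (a, b) ≠ (0, 0) →
        |((p : ℝ) + 1) * ‖overlap ψ a b‖ ^ 2 - 1|
          ≤ 4 * ((p : ℝ) + 1) ^ (-(1 / 4) : ℝ) + 3 * ((p : ℝ) + 1) ^ (-(1 / 2) : ℝ) := by
  have hp0 : (0 : ℝ) < p := by exact_mod_cast hp.out.pos
  have hp5 : (5 : ℝ) ≤ p := by exact_mod_cast h5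
  have hp1 : (0 : ℝ) < (p : ℝ) + 1 := by positivity
  obtain ⟨y, hydef⟩ : ∃ y : ℝ, y = ((p : ℝ) + 1) ^ (-(1 / 4) : ℝ) := ⟨_, rfl⟩
  have hy0 : 0 < y := by rw [hydef]; positivity
  have hy4 : y ^ 4 * ((p : ℝ) + 1) = 1 := by
    rw [hydef, ← Real.rpow_natCast, ← Real.rpow_mul hp1.le]
    norm_num
    rw [Real.rpow_neg_one]
    field_simp
  have hysq : ((p : ℝ) + 1) ^ (-(1 / 2) : ℝ) = y ^ 2 := by
    rw [hydef, ← Real.rpow_natCast, ← Real.rpow_mul hp1.le]
    norm_num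
  have hy4' : y ^ 4 ≤ 1 / 6 := by
    rw [le_div_iff₀ (by norm_num)]
    nlinarith [pow_pos hy0 4]
  have hy1 : y < 1 := by
    by_contra hcon
    push Not at hcon
    have : (1 : ℝ) ≤ y ^ 4 := one_le_pow₀ hcon
    linarith
  have hy2 : y ^ 2 < 1 := by nlinarith
  have hpy : (p : ℝ) * y ^ 4 = 1 - y ^ 4 := by linarith
  have h_inv : 1 / ((p : ℝ) + 1) = y ^ 4 := by
    rw [div_eq_iff hp1.ne']; linarith
  -- parameters
  obtain ⟨c, hcdef⟩ : ∃ c : ℝ, c = Real.sqrt ((1 - y ^ 2) / p) := ⟨_, rfl⟩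
  have hc2 : c ^ 2 = (1 - y ^ 2) / p := by
    rw [hcdef, Real.sq_sqrt]
    apply div_nonneg _ hp0.le
    linarith
  have hc0 : 0 ≤ c := by rw [hcdef]; exact Real.sqrt_nonneg _
  obtain ⟨s, hsdef⟩ : ∃ s : ℝ, s = Real.sqrt (c ^ 2 + y ^ 2) := ⟨_, rfl⟩
  have hs2 : s ^ 2 = c ^ 2 + y ^ 2 := by
    rw [hsdef, Real.sq_sqrt]; positivity
  have hs0 : 0 ≤ s := by rw [hsdef]; exact Real.sqrt_nonneg _
  have hcs : c ≤ s := by
    apply le_of_sq_le_sq _ hs0
    rw [hs2]; nlinarith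
  have hsc : s - c ≤ y := by
    have h1 : (s - c) ^ 2 ≤ y ^ 2 := by nlinarith
    nlinarith [abs_le_of_sq_le_sq h1 hy0.le]
  have hpc : (p : ℝ) * c ^ 2 = 1 - y ^ 2 := by rw [hc2]; field_simp
  refine ⟨vec p c s, ?_, ?_, ?_⟩
  · have h1 : ((∑ j, ‖vec p c s j‖ ^ 2 : ℝ) : ℂ) = overlap (vec p c s) 0 0 := by
      rw [overlap_eq]
      push_cast
      refine Finset.sum_congr rfl fun j _ => ?_
      simp only [add_zero, zero_mul, AddChar.map_zero_eq_one, one_mul]
      rw [mul_comm, Complex.mul_conj, Complex.normSq_eq_norm_sq]; push_cast; rfl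
    rw [vec_overlap_zero] at h1
    simp only [if_true] at h1
    have h2 : (∑ j, ‖vec p c s j‖ ^ 2 : ℝ) = c ^ 2 * p + (s ^ 2 - c ^ 2) := by exact_mod_cast h1
    rw [h2, hs2]; linarith
  · intro b hb
    rw [vec_overlap_zero, if_neg hb, mul_zero, zero_add, Complex.norm_real, Real.norm_eq_abs, sq_abs,
      h_inv, hs2]
    ring
  · intro a b hab
    rw [hysq, ← hydef]
    by_cases ha : a = 0
    · subst ha
      have hb : b ≠ 0 := by
        rintro rfl; exact hab rfl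
      rw [vec_overlap_zero, if_neg hb, mul_zero, zero_add, Complex.norm_real, Real.norm_eq_abs, sq_abs,
        hs2]
      have : ((p : ℝ) + 1) * (c ^ 2 + y ^ 2 - c ^ 2) ^ 2 - 1 = 0 := by
        have : ((p : ℝ) + 1) * (c ^ 2 + y ^ 2 - c ^ 2) ^ 2 = y ^ 4 * ((p : ℝ) + 1) := by ring
        rw [this, hy4]; ring
      rw [this, abs_zero]; positivity
    · obtain ⟨n, hn⟩ : ∃ n : ℝ, n = ‖overlap (vec p c s) a b‖ := ⟨_, rfl⟩
      rw [← hn]
      have hn0 : 0 ≤ n := by rw [hn]; exact norm_nonneg _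
      obtain ⟨G, hG⟩ : ∃ G : ℂ, G = ∑ j : ZMod p,
        (ZMod.stdAddChar (-3 * a * j ^ 2 + (b - 3 * a ^ 2) * j + -a ^ 3) : ℂ) := ⟨_, rfl⟩
      have h3 : (-3 : ZMod p) * a ≠ 0 := by
        apply mul_ne_zero _ ha
        rw [neg_ne_zero]
        intro h
        have : ((3 : ℕ) : ZMod p) = 0 := by exact_mod_cast h
        rw [ZMod.natCast_eq_zero_iff] at this
        have := (Nat.prime_dvd_prime_iff_eq hp.out Nat.prime_three).1 this
        omega
      have hGn : ‖G‖ ^ 2 = p := by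
        rw [hG]; exact quad_gauss (by omega) h3 _ _
      have hov := vec_overlap_ne c s ha b
      rw [← hG] at hov
      obtain ⟨E, hE⟩ : ∃ E : ℂ, E = c * ((s - c : ℝ) : ℂ) *
        (ZMod.stdAddChar (-a ^ 3) + ZMod.stdAddChar (-(a * b) - a ^ 3)) := ⟨_, rfl⟩
      rw [← hE] at hov
      have hEn : ‖E‖ ≤ 2 * c * (s - c) := by
        rw [hE, norm_mul, norm_mul, Complex.norm_real, Complex.norm_real, Real.norm_eq_abs,
          Real.norm_eq_abs, abs_of_nonneg hc0, abs_of_nonneg (sub_nonneg.2 hcs)]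
        have : ‖(ZMod.stdAddChar (-a ^ 3) + ZMod.stdAddChar (-(a * b) - a ^ 3) : ℂ)‖ ≤ 2 := by
          refine (norm_add_le _ _).trans ?_
          rw [norm_char, norm_char]; norm_num
        nlinarith [mul_nonneg hc0 (sub_nonneg.2 hcs)]
      have hM : ‖(c : ℂ) ^ 2 * G‖ = c ^ 2 * ‖G‖ := by
        rw [norm_mul, norm_pow, Complex.norm_real, Real.norm_eq_abs, sq_abs]
      have hup : n ≤ c ^ 2 * ‖G‖ + 2 * c * (s - c) := by
        rw [hn, hov, ← hM]
        exact (norm_add_le _ _).trans (by linarith)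
      have hlo : c ^ 2 * ‖G‖ - 2 * c * (s - c) ≤ n := by
        rw [hn, hov, ← hM]
        have := norm_sub_norm_le ((c : ℂ) ^ 2 * G) (-E)
        rw [norm_neg, sub_neg_eq_add] at this
        linarith
      -- multiply by g = ‖G‖ = √p
      obtain ⟨g, hg⟩ : ∃ g : ℝ, g = ‖G‖ := ⟨_, rfl⟩
      rw [← hg] at hup hlo hGn
      have hg0 : 0 ≤ g := by rw [hg]; exact norm_nonneg _
      have hgc : g * c ≤ 1 := by
        have : (g * c) ^ 2 ≤ 1 ^ 2 := by
          rw [mul_pow, hGn, hpc]; nlinarith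
        exact le_of_sq_le_sq this (by norm_num)
      have hgcs : g * (2 * c * (s - c)) ≤ 2 * y := by
        have h1 : g * (2 * c * (s - c)) = 2 * (g * c) * (s - c) := by ring
        rw [h1]
        nlinarith [mul_nonneg hg0 hc0, sub_nonneg.2 hcs]
      have hw1 : g * n ≤ 1 - y ^ 2 + 2 * y := by
        have h1 : g * n ≤ g * (c ^ 2 * g + 2 * c * (s - c)) := mul_le_mul_of_nonneg_left hup hg0
        have h2 : g * (c ^ 2 * g) = 1 - y ^ 2 := by rw [← hpc, ← hGn]; ring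
        linarith [mul_add g (c ^ 2 * g) (2 * c * (s - c))]
      have hw2 : 1 - y ^ 2 - 2 * y ≤ g * n := by
        have h1 : g * (c ^ 2 * g - 2 * c * (s - c)) ≤ g * n := mul_le_mul_of_nonneg_left hlo hg0
        have h2 : g * (c ^ 2 * g) = 1 - y ^ 2 := by rw [← hpc, ← hGn]; ring
        linarith [mul_sub g (c ^ 2 * g) (2 * c * (s - c))]
      have hw0 : 0 ≤ g * n := mul_nonneg hg0 hn0
      have hkey : ((p : ℝ) + 1) * n ^ 2 * (1 - y ^ 4) = (g * n) ^ 2 := by
        rw [mul_pow, hGn, ← hpy]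
        linear_combination n ^ 2 * (p : ℝ) * hy4
      have hpos : 0 < 1 - y ^ 4 := by linarith
      obtain ⟨W, hW⟩ : ∃ W : ℝ, W = ((p : ℝ) + 1) * n ^ 2 := ⟨_, rfl⟩
      rw [← hW] at hkey ⊢
      have hy3 : 0 < y ^ 3 := pow_pos hy0 3
      have hy5 : 0 < y ^ 5 := pow_pos hy0 5
      rw [abs_le]
      constructor
      · by_cases h6 : 1 ≤ 4 * y + 3 * y ^ 2
        · have : 0 ≤ W := by rw [hW]; positivity
          linarith
        · push Not at h6
          have h7 : 0 ≤ 1 - y ^ 2 - 2 * y := by nlinarith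
          have h8 : (1 - y ^ 2 - 2 * y) ^ 2 ≤ (g * n) ^ 2 := pow_le_pow_left₀ h7 hw2 2
          rw [← hkey] at h8
          have h9 : (1 - (4 * y + 3 * y ^ 2)) * (1 - y ^ 4) ≤ W * (1 - y ^ 4) := by
            refine le_trans ?_ h8
            nlinarith [pow_pos hy0 2, pow_pos hy0 4, pow_pos hy0 6]
          linarith [le_of_mul_le_mul_right h9 hpos]
      · have h8 : (g * n) ^ 2 ≤ (1 - y ^ 2 + 2 * y) ^ 2 := pow_le_pow_left₀ hw0 hw1 2
        rw [← hkey] at h8
        have h9 : W * (1 - y ^ 4) ≤ (1 + (4 * y + 3 * y ^ 2)) * (1 - y ^ 4) := by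
          refine h8.trans ?_
          have hy23 : y < 2 / 3 := by
            by_contra hcon
            push Not at hcon
            have : (2 / 3 : ℝ) ^ 4 ≤ y ^ 4 := pow_le_pow_left₀ (by norm_num) hcon 4
            norm_num at this
            linarith
          have h10 : 0 ≤ 1 + 4 * y - 2 * y ^ 2 - 4 * y ^ 3 - 3 * y ^ 4 := by
            have h11 : y ^ 2 ≤ 4 / 9 := by nlinarith
            have h12 : y ^ 3 ≤ 4 / 9 * y := by nlinarith
            nlinarith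
          nlinarith [mul_nonneg (pow_pos hy0 2).le h10]
        linarith [le_of_mul_le_mul_right h9 hpos]

end Pool.Agent.Q142.SIC
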