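import Pool.Agent.Q142.SIC.Defs

set_option autoImplicit false

open scoped ComplexConjugate

/-!
# Approximate fiducial vectors in dimensions `q - 1`, `q` a prime power
-/

namespace Pool.Agent.Q142.SIC

section

variable {d : ℕ} [NeZero d] {F : Type} [Field F] [Fintype F] [DecidableEq F]

lemma conj_add_char (χ : AddChar F ℂ) (x : F) : conj (χ x) = χ (-x) := by
  rw [AddChar.starComp_apply, AddChar.inv_apply]
  exact Nat.pos_of_ne_zero (CharP.ringChar_ne_zero_of_finite F)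

lemma norm_add_char (χ : AddChar F ℂ) (x : F) : ‖χ x‖ = 1 := by
  have h : conj (χ x) * χ x = 1 := by
    rw [conj_add_char, ← AddChar.map_add_eq_mul]; simp
  have h2 : (‖χ x‖ ^ 2 : ℝ) = 1 := by
    have : ((‖χ x‖ ^ 2 : ℝ) : ℂ) = 1 := by
      rw [← h, mul_comm, Complex.mul_conj, Complex.normSq_eq_norm_sq]
    exact_mod_cast this
  nlinarith [norm_nonneg (χ x)]

variable (χ : AddChar F ℂ) (e : ZMod d → F)

/-- the data: a nontrivial additive character and an exponential map -/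
structure Setup (χ : AddChar F ℂ) (e : ZMod d → F) : Prop where
  prim : χ.IsPrimitive
  add : ∀ i j, e (i + j) = e i * e j
  inj : Function.Injective e
  ne : ∀ i, e i ≠ 0
  surj : ∀ x : F, x ≠ 0 → ∃ i, e i = x

variable {χ e}

lemma Setup.zero (h : Setup χ e) : e 0 = 1 := by
  have := h.add 0 0
  rw [add_zero] at this
  exact (mul_eq_left₀ (h.ne 0)).1 this.symm

lemma Setup.sum (h : Setup χ e) (g : F → ℂ) : ∑ i, g (e i) = (∑ x, g x) - g 0 := by
  rw [eq_sub_iff_add_eq, ← Finset.sum_erase_add _ _ (Finset.mem_univ (0 : F))]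
  congr 1
  refine Finset.sum_bij (fun i _ => e i) ?_ ?_ ?_ ?_
  · intro i _; simp [h.ne i]
  · intro i _ j _ hij; exact h.inj hij
  · intro x hx
    obtain ⟨i, hi⟩ := h.surj x (by simpa using hx)
    exact ⟨i, Finset.mem_univ _, hi⟩
  · intro i _; rfl

lemma Setup.sum_char (h : Setup χ e) {c : F} (hc : c ≠ 0) : ∑ i, χ (c * e i) = -1 := by
  rw [h.sum (fun x => χ (c * x))]
  have := AddChar.sum_mulShift c h.prim
  rw [if_neg hc] at this
  simp only [mul_zero, AddChar.map_zero_eq_one]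
  simp_rw [mul_comm c]
  rw [this]; simp

/-- The Gauss sum over the multiplicative group. -/
noncomputable def S (χ : AddChar F ℂ) (e : ZMod d → F) (c : F) (b : ZMod d) : ℂ :=
  ∑ i, χ (c * e i) * ZMod.stdAddChar (b * i)

lemma Setup.S_zero (h : Setup χ e) {c : F} (hc : c ≠ 0) : S χ e c 0 = -1 := by
  unfold S; simp [h.sum_char hc]

lemma S_zero_left (b : ZMod d) : S χ e 0 b = if b = 0 then (d : ℂ) else 0 := by
  unfold S
  simp only [zero_mul, AddChar.map_zero_eq_one, one_mul]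
  rw [← SIC.sum_char]
  refine Finset.sum_congr rfl fun x _ => by rw [mul_comm]

lemma Setup.S_norm (h : Setup χ e) {c : F} (hc : c ≠ 0) {b : ZMod d} (hb : b ≠ 0) :
    ‖S χ e c b‖ ^ 2 = (d : ℝ) + 1 := by
  have key : ((‖S χ e c b‖ ^ 2 : ℝ) : ℂ) = ((d : ℝ) + 1 : ℝ) := by
    have h1 : ((‖S χ e c b‖ ^ 2 : ℝ) : ℂ) = S χ e c b * conj (S χ e c b) := by
      rw [Complex.mul_conj, Complex.normSq_eq_norm_sq]
    rw [h1]
    conv_lhs => arg 2; rw [S, map_sum]
    rw [Finset.mul_sum]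
    have h3 : ∀ k : ZMod d, S χ e c b * conj (χ (c * e k) * ZMod.stdAddChar (b * k))
        = ∑ l : ZMod d, (ZMod.stdAddChar (b * l) : ℂ) * χ (c * (e l - 1) * e k) := by
      intro k
      rw [map_mul, conj_char, conj_add_char, S, Finset.sum_mul, ← Equiv.sum_comp (Equiv.addRight k)]
      refine Finset.sum_congr rfl fun l _ => ?_
      simp only [Equiv.coe_addRight]
      have e1 : (ZMod.stdAddChar (b * l) : ℂ)
          = ZMod.stdAddChar (b * (l + k)) * ZMod.stdAddChar (-(b * k)) := by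
        rw [← AddChar.map_add_eq_mul]; congr 1; ring
      have e2 : χ (c * (e l - 1) * e k) = χ (c * e (l + k)) * χ (-(c * e k)) := by
        rw [← AddChar.map_add_eq_mul, h.add]; congr 1; ring
      rw [e1, e2]; ring
    simp_rw [h3]
    rw [Finset.sum_comm]
    simp_rw [← Finset.mul_sum]
    have h4 : ∀ l : ZMod d, (ZMod.stdAddChar (b * l) : ℂ) * ∑ k, χ (c * (e l - 1) * e k)
        = -ZMod.stdAddChar (l * b) + if l = 0 then ((d : ℂ) + 1) else 0 := by
      intro l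
      by_cases hl : l = 0
      · subst hl
        rw [h.zero]
        simp [ZMod.card]
      · have : c * (e l - 1) ≠ 0 := by
          apply mul_ne_zero hc
          intro h0
          apply hl
          apply h.inj
          rw [h.zero]; exact sub_eq_zero.1 h0
        rw [h.sum_char this, if_neg hl, mul_comm b l]; ring
    simp_rw [h4]
    rw [Finset.sum_add_distrib, Finset.sum_neg_distrib, SIC.sum_char, if_neg hb]
    simp
  exact_mod_cast key

/-- the vector `φ + x + x⁻¹ δ₀` -/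
noncomputable def tvec (χ : AddChar F ℂ) (e : ZMod d → F) (x : ℝ) : ZMod d → ℂ :=
  fun j => χ (e j) + (x : ℂ) + if j = 0 then ((x⁻¹ : ℝ) : ℂ) else 0

lemma Setup.tvec_overlap (h : Setup χ e) {x : ℝ} (hx : x ≠ 0) (a b : ZMod d) :
    overlap (tvec χ e x) a b
      = (S χ e (1 - e a) b + (x ^ 2 * (if b = 0 then (d : ℂ) else 0) + if a = 0 then ((x⁻¹ ^ 2 : ℝ) : ℂ) else 0))
        + (x * (S χ e (-e a) b + S χ e 1 b)
          + ((x⁻¹ : ℝ) : ℂ) * (χ (-e a) + χ (e (-a)) * ZMod.stdAddChar (-(a * b)))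
          + (1 + ZMod.stdAddChar (-(a * b)))) := by
  have hxx : ((x⁻¹ : ℝ) : ℂ) * x = 1 := by
    rw [← Complex.ofReal_mul, inv_mul_cancel₀ hx]; simp
  rw [overlap_eq]
  have hj : ∀ j : ZMod d, conj (tvec χ e x (j + a)) * (ZMod.stdAddChar (b * j) * tvec χ e x j)
      = χ ((1 - e a) * e j) * ZMod.stdAddChar (b * j)
        + x * (χ (-e a * e j) * ZMod.stdAddChar (b * j)) + x * (χ (1 * e j) * ZMod.stdAddChar (b * j))
        + x ^ 2 * ZMod.stdAddChar (j * b)
        + ((if j = 0 then ((x⁻¹ : ℝ) : ℂ) * χ (-e a) + 1 else 0)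
        + (if j = -a then ((x⁻¹ : ℝ) : ℂ) * (χ (e (-a)) * ZMod.stdAddChar (-(a * b)))
            + ZMod.stdAddChar (-(a * b)) else 0)
        + (if j = 0 then (if a = 0 then ((x⁻¹ ^ 2 : ℝ) : ℂ) else 0) else 0)) := by
    intro j
    unfold tvec
    have e1 : χ ((1 - e a) * e j) = χ (-e (j + a)) * χ (e j) := by
      rw [← AddChar.map_add_eq_mul, h.add]; congr 1; ring
    have e3 : χ (-e a * e j) = χ (-e (j + a)) := by rw [h.add]; congr 1; ring
    rw [e1, e3, one_mul, mul_comm j b]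
    simp only [map_add, Complex.conj_ofReal, conj_add_char]
    by_cases h0 : j = 0
    · subst h0
      by_cases ha : a = 0
      · subst ha
        simp only [add_zero, if_true, neg_zero, zero_mul, mul_zero, AddChar.map_zero_eq_one,
          Complex.conj_ofReal]
        push_cast at hxx ⊢
        linear_combination 2 * hxx
      · have h2 : ¬ ((0 : ZMod d) = -a) := by
          intro h; apply ha; rw [eq_neg_iff_add_eq_zero, zero_add] at h; exact h
        simp only [zero_add, if_neg ha, if_neg h2, if_true, mul_zero, AddChar.map_zero_eq_one, map_zero]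
        linear_combination hxx
    · by_cases h1 : j = -a
      · subst h1
        have h2 : ¬ (-a = (0 : ZMod d)) := h0
        have e4 : (ZMod.stdAddChar (b * -a) : ℂ) = ZMod.stdAddChar (-(a * b)) := by
          congr 1; ring
        rw [e4]
        simp only [neg_add_cancel, if_neg h2, if_true, Complex.conj_ofReal]
        linear_combination (ZMod.stdAddChar (-(a * b)) : ℂ) * hxx
      · have h2 : ¬ (j + a = 0) := by rwa [add_eq_zero_iff_eq_neg]
        simp only [if_neg h0, if_neg h1, if_neg h2, map_zero, add_zero]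
        ring
  simp_rw [hj]
  simp only [Finset.sum_add_distrib, ← Finset.mul_sum, Finset.sum_ite_eq', Finset.mem_univ, if_true]
  rw [SIC.sum_char]
  unfold S
  ring

/-- the data exist when `d + 1` is a prime power -/
lemma exists_setup (d : ℕ) [NeZero d] (hq : IsPrimePow (d + 1)) :
    ∃ (F : Type) (_ : Field F) (_ : Fintype F) (_ : DecidableEq F) (χ : AddChar F ℂ) (e : ZMod d → F),
      Setup χ e := by
  classical
  obtain ⟨p, k, hp, hk, hpk⟩ := (isPrimePow_nat_iff _).1 hq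
  haveI : Fact p.Prime := ⟨hp⟩
  let F := GaloisField p k
  haveI : Fintype F := Fintype.ofFinite F
  have hcard : Nat.card F = d + 1 := by rw [GaloisField.card p k hk.ne', hpk]
  have hunits : Nat.card Fˣ = d := by rw [Nat.card_units, hcard]; rfl
  -- the additive character
  obtain ⟨g, hg⟩ := IsCyclic.exists_generator (α := Fˣ)
  let E : Multiplicative (ZMod d) ≃* Fˣ := zmodMulEquivOfGenerator hg hunits
  -- primitive additive character into ℂ
  have hchar : ringChar ℂ ≠ ringChar F := by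
    rw [ringChar.eq_zero]
    exact (CharP.ringChar_ne_zero_of_finite F).symm
  let P := AddChar.FiniteField.primitiveChar F ℂ hchar
  have hfin : FiniteDimensional ℂ (CyclotomicField P.n ℂ) :=
    IsCyclotomicExtension.finiteDimensional {(P.n : ℕ)} ℂ (CyclotomicField P.n ℂ)
  have halg : Algebra.IsAlgebraic ℂ (CyclotomicField P.n ℂ) := Algebra.IsAlgebraic.of_finite _ _
  let j : CyclotomicField P.n ℂ →+* ℂ :=
    (IsAlgClosed.lift (M := ℂ) (R := ℂ) (S := CyclotomicField P.n ℂ)).toRingHom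
  let χ : AddChar F ℂ := j.toMonoidHom.compAddChar P.char
  have hχ : χ.IsPrimitive := P.prim.compMulHom_of_isPrimitive j.injective
  refine ⟨F, inferInstance, inferInstance, inferInstance, χ, fun i => (E (Multiplicative.ofAdd i) : F), ?_⟩
  refine ⟨hχ, ?_, ?_, ?_, ?_⟩
  · intro i l
    rw [ofAdd_add, map_mul, Units.val_mul]
  · intro i l hil
    exact Multiplicative.ofAdd.injective (E.injective (Units.ext hil))
  · intro i; exact Units.ne_zero _
  · intro x hx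
    refine ⟨Multiplicative.toAdd (E.symm (Units.mk0 x hx)), ?_⟩
    simp

end

lemma overlap_smul {d : ℕ} [NeZero d] (r : ℝ) (ψ : ZMod d → ℂ) (a b : ZMod d) :
    overlap (fun j => (r : ℂ) * ψ j) a b = (r : ℂ) ^ 2 * overlap ψ a b := by
  rw [overlap_eq, overlap_eq, Finset.mul_sum]
  refine Finset.sum_congr rfl fun j _ => ?_
  rw [map_mul, Complex.conj_ofReal]; ring

lemma overlap_zero_zero {d : ℕ} [NeZero d] (ψ : ZMod d → ℂ) :
    overlap ψ 0 0 = ((∑ j, ‖ψ j‖ ^ 2 : ℝ) : ℂ) := by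
  rw [overlap_eq]
  push_cast
  refine Finset.sum_congr rfl fun j _ => ?_
  simp only [add_zero, zero_mul, AddChar.map_zero_eq_one, one_mul]
  rw [mul_comm, Complex.mul_conj, Complex.normSq_eq_norm_sq]; push_cast; rfl

/-- numerical lemma -/
lemma numeric {x w N : ℝ} (hx : 0 < x) (hx4 : x ^ 4 ≤ 1 / 2) (hw0 : 0 ≤ w) (hw : |w - 1| ≤ 4 * x + 4 * x ^ 2)
    (hN1 : 1 ≤ N) (hN2 : N ≤ 1 + 6 * x ^ 2) :
    |(1 + x ^ 4) * w ^ 2 / N ^ 2 - 1| ≤ 8 * x + 102 * x ^ 2 := by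
  have hx85 : x ≤ 0.841 := by
    by_contra hcon
    push Not at hcon
    have : (0.841 : ℝ) ^ 4 ≤ x ^ 4 := pow_le_pow_left₀ (by norm_num) hcon.le 4
    norm_num at this
    norm_num at hx4
    linarith
  obtain ⟨h1, h2⟩ := abs_le.1 hw
  have hNpos : 0 < N ^ 2 := by positivity
  have hN21 : 1 ≤ N ^ 2 := one_le_pow₀ hN1
  rw [abs_le]
  constructor
  · by_cases h6 : 1 ≤ 4 * x + 4 * x ^ 2
    · have : 0 ≤ (1 + x ^ 4) * w ^ 2 / N ^ 2 := by positivity
      nlinarith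
    · push Not at h6
      by_cases h7 : 1 ≤ 8 * x + 102 * x ^ 2
      · have : 0 ≤ (1 + x ^ 4) * w ^ 2 / N ^ 2 := by positivity
        linarith
      · push Not at h7
        have h8 : 1 - 4 * x - 4 * x ^ 2 ≤ w := by linarith
        have h9 : (1 - 4 * x - 4 * x ^ 2) ^ 2 ≤ w ^ 2 := pow_le_pow_left₀ (by linarith) h8 2
        have h10 : N ^ 2 ≤ (1 + 6 * x ^ 2) ^ 2 := pow_le_pow_left₀ (by linarith) hN2 2
        have h11 : 1 - (8 * x + 102 * x ^ 2) ≤ (1 + x ^ 4) * w ^ 2 / N ^ 2 := by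
          rw [le_div_iff₀ hNpos]
          calc (1 - (8 * x + 102 * x ^ 2)) * N ^ 2
              ≤ (1 - (8 * x + 102 * x ^ 2)) * (1 + 6 * x ^ 2) ^ 2 :=
                mul_le_mul_of_nonneg_left h10 (by linarith)
            _ ≤ (1 - 4 * x - 4 * x ^ 2) ^ 2 := by
                have e1 : (1 - (8 * x + 102 * x ^ 2)) * (1 + 6 * x ^ 2) ^ 2
                  = (1 - (8 * x + 102 * x ^ 2)) + (1 - (8 * x + 102 * x ^ 2)) * (12 * x ^ 2 + 36 * x ^ 4) := by ring
                have e2 : (1 - (8 * x + 102 * x ^ 2)) * (12 * x ^ 2 + 36 * x ^ 4)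
                  ≤ 12 * x ^ 2 + 36 * x ^ 4 := by
                  have : 0 ≤ 12 * x ^ 2 + 36 * x ^ 4 := by positivity
                  nlinarith [mul_nonneg (by positivity : 0 ≤ 8 * x + 102 * x ^ 2) this]
                have e3 : x ^ 4 ≤ x ^ 2 := by nlinarith [pow_pos hx 2]
                have e4 : 0 < x ^ 3 := pow_pos hx 3
                nlinarith [pow_pos hx 2, pow_pos hx 4]
            _ ≤ w ^ 2 := h9
            _ ≤ (1 + x ^ 4) * w ^ 2 := by nlinarith [mul_nonneg (pow_pos hx 4).le (sq_nonneg w)]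
        linarith
  · have h8 : w ^ 2 ≤ ((1 + 2 * x) ^ 2) ^ 2 := pow_le_pow_left₀ hw0 (by nlinarith) 2
    have h9 : (1 + x ^ 4) * w ^ 2 / N ^ 2 ≤ (1 + x ^ 4) * w ^ 2 :=
      div_le_self (by positivity) hN21
    have h10 : (1 + x ^ 4) * w ^ 2 ≤ (1 + x ^ 4) * ((1 + 2 * x) ^ 2) ^ 2 :=
      mul_le_mul_of_nonneg_left h8 (by positivity)
    have h11 : (1 + x ^ 4) * ((1 + 2 * x) ^ 2) ^ 2 ≤ 1 + 8 * x + 102 * x ^ 2 := by
      have h12 : (1 + 2 * x) ^ 4 ≤ (2.682 : ℝ) ^ 4 := pow_le_pow_left₀ (by positivity) (by linarith) 4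
      have h13 : x ^ 2 ≤ 0.7073 := by nlinarith
      have e1 : (1 + x ^ 4) * ((1 + 2 * x) ^ 2) ^ 2
        = 1 + 8 * x + x ^ 2 * (24 + 32 * x + 16 * x ^ 2 + x ^ 2 * (1 + 2 * x) ^ 4) := by ring
      rw [e1]
      have h14 : x ^ 2 * (1 + 2 * x) ^ 4 ≤ 0.7073 * (2.682 : ℝ) ^ 4 :=
        mul_le_mul h13 h12 (by positivity) (by norm_num)
      norm_num at h14
      have h15 : 24 + 32 * x + 16 * x ^ 2 + x ^ 2 * (1 + 2 * x) ^ 4 ≤ 102 := by
        linarith
      nlinarith [pow_pos hx 2]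
    linarith

lemma exists_approx_torus (d : ℕ) [NeZero d] (hd2 : 2 ≤ d) (hq : IsPrimePow (d + 1)) :
    ∃ ψ : ZMod d → ℂ, ∑ j, ‖ψ j‖ ^ 2 = 1 ∧
      ∀ a b : ZMod d, (a, b) ≠ (0, 0) →
        |((d : ℝ) + 1) * ‖overlap ψ a b‖ ^ 2 - 1|
          ≤ 8 * (d : ℝ) ^ (-(1 / 4) : ℝ) + 102 * (d : ℝ) ^ (-(1 / 2) : ℝ) := by
  obtain ⟨F, _, _, _, χ, e, h⟩ := exists_setup d hq
  have hd0 : (0 : ℝ) < d := by exact_mod_cast Nat.pos_of_ne_zero (NeZero.ne d)
  have hd2' : (2 : ℝ) ≤ d := by exact_mod_cast hd2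
  obtain ⟨x, hxdef⟩ : ∃ x : ℝ, x = (d : ℝ) ^ (-(1 / 4) : ℝ) := ⟨_, rfl⟩
  have hx0 : 0 < x := by rw [hxdef]; positivity
  have hx4 : x ^ 4 * (d : ℝ) = 1 := by
    rw [hxdef, ← Real.rpow_natCast, ← Real.rpow_mul hd0.le]
    norm_num
    rw [Real.rpow_neg_one]
    field_simp
  have hxsq : (d : ℝ) ^ (-(1 / 2) : ℝ) = x ^ 2 := by
    rw [hxdef, ← Real.rpow_natCast, ← Real.rpow_mul hd0.le]
    norm_num
  have hx4' : x ^ 4 ≤ 1 / 2 := by
    nlinarith [pow_pos hx0 4]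
  have hx1 : x < 1 := by
    by_contra hcon
    push Not at hcon
    have : (1 : ℝ) ≤ x ^ 4 := one_le_pow₀ hcon
    linarith
  rw [hxsq, ← hxdef]
  -- sd = √d
  obtain ⟨sd, hsd⟩ : ∃ sd : ℝ, sd = x⁻¹ ^ 2 := ⟨_, rfl⟩
  have hsdx : sd * x ^ 2 = 1 := by rw [hsd]; field_simp
  have hsd0 : 0 < sd := by rw [hsd]; positivity
  have hsd2 : sd ^ 2 = d := by
    have : (sd * x ^ 2) ^ 2 = 1 := by rw [hsdx]; norm_num
    have h2 : sd ^ 2 * x ^ 4 = 1 := by linarith [this, (by ring : (sd * x ^ 2) ^ 2 = sd ^ 2 * x ^ 4)]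
    have h3 : x ^ 4 ≠ 0 := (pow_pos hx0 4).ne'
    apply mul_right_cancel₀ h3
    linarith
  have hsd1 : 1 ≤ sd := by nlinarith
  have hxdsd : x ^ 2 * (d : ℝ) = sd := by
    rw [← hsd2]; nlinarith
  have hSb : ∀ c : F, c ≠ 0 → ∀ b : ZMod d, ‖S χ e c b‖ ≤ sd + x ^ 2 / 2 := by
    intro c hc b
    by_cases hb : b = 0
    · subst hb
      rw [h.S_zero hc, norm_neg, norm_one]
      nlinarith [pow_pos hx0 2]
    · have h1 := h.S_norm hc hb
      apply le_of_sq_le_sq _ (by positivity)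
      rw [h1, ← hsd2]
      nlinarith [pow_pos hx0 4]
  obtain ⟨V, hV⟩ : ∃ V : ZMod d → ZMod d → ℂ, V = overlap (tvec χ e x) := ⟨_, rfl⟩
  -- the remainder
  have hrem : ∀ a b : ZMod d, ‖(x : ℂ) * (S χ e (-e a) b + S χ e 1 b)
          + ((x⁻¹ : ℝ) : ℂ) * (χ (-e a) + χ (e (-a)) * ZMod.stdAddChar (-(a * b)))
          + (1 + ZMod.stdAddChar (-(a * b)))‖ ≤ x * (2 * (sd + x ^ 2 / 2)) + x⁻¹ * 2 + 2 := by
    intro a b
    refine (norm_add_le _ _).trans (add_le_add ((norm_add_le _ _).trans (add_le_add ?_ ?_)) ?_)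
    · rw [norm_mul, Complex.norm_real, Real.norm_eq_abs, abs_of_pos hx0]
      refine mul_le_mul_of_nonneg_left ((norm_add_le _ _).trans ?_) hx0.le
      have h1 := hSb (-e a) (neg_ne_zero.2 (h.ne a)) b
      have h2 := hSb 1 one_ne_zero b
      linarith
    · rw [norm_mul, Complex.norm_real, Real.norm_eq_abs, abs_of_pos (inv_pos.2 hx0)]
      refine mul_le_mul_of_nonneg_left ((norm_add_le _ _).trans ?_) (inv_pos.2 hx0).le
      rw [norm_mul, norm_add_char, norm_add_char, norm_char]; norm_num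
    · refine (norm_add_le _ _).trans ?_
      rw [norm_one, norm_char]; norm_num
  have hmain : ∀ a b : ZMod d, (a, b) ≠ (0, 0) → |‖S χ e (1 - e a) b +
      ((x : ℂ) ^ 2 * (if b = 0 then (d : ℂ) else 0) + if a = 0 then ((x⁻¹ ^ 2 : ℝ) : ℂ) else 0)‖ - sd| ≤ 1 := by
    intro a b hab
    by_cases ha : a = 0
    · have hb : b ≠ 0 := by rintro rfl; exact hab (by rw [ha])
      rw [ha, h.zero, sub_self, S_zero_left, if_neg hb, if_pos rfl, ← hsd]
      simp [abs_of_pos hsd0]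
    · have hea : 1 - e a ≠ 0 := by
        intro h0
        apply ha
        apply h.inj
        rw [h.zero]; exact (sub_eq_zero.1 h0).symm
      by_cases hb : b = 0
      · rw [hb, h.S_zero hea, if_pos rfl, if_neg ha]
        have : (-1 + ((x : ℂ) ^ 2 * (d : ℂ) + 0)) = ((sd - 1 : ℝ) : ℂ) := by
          rw [← hxdsd]; push_cast; ring
        rw [this, Complex.norm_real, Real.norm_eq_abs, abs_of_nonneg (by linarith : 0 ≤ sd - 1)]
        have e5 : sd - 1 - sd = -1 := by ring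
        rw [e5, abs_neg, abs_one]
      · rw [if_neg hb, if_neg ha, mul_zero, add_zero, add_zero]
        have h1 := h.S_norm hea hb
        have h0 := norm_nonneg (S χ e (1 - e a) b)
        rw [← hsd2] at h1
        rw [abs_le]
        constructor <;> nlinarith
  -- the norm
  obtain ⟨NF, hNF⟩ : ∃ NF : ℝ, NF = ∑ j, ‖tvec χ e x j‖ ^ 2 := ⟨_, rfl⟩
  obtain ⟨ρ, hρ⟩ : ∃ ρ : ℝ, ρ = (χ (-1) + χ 1).re := ⟨_, rfl⟩
  have hρ2 : |ρ| ≤ 2 := by
    rw [hρ]
    refine (Complex.abs_re_le_norm _).trans ((norm_add_le _ _).trans ?_)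
    rw [norm_add_char, norm_add_char]; norm_num
  have hNFval : NF = d + 2 * sd - 2 * x + x⁻¹ * ρ + 2 := by
    have h1 := overlap_zero_zero (tvec χ e x)
    rw [← hNF, h.tvec_overlap hx0.ne', h.zero, sub_self, S_zero_left, h.S_zero (neg_ne_zero.2 one_ne_zero),
      h.S_zero one_ne_zero, if_pos rfl, if_pos rfl, ← hsd] at h1
    simp only [neg_zero, h.zero, mul_zero, AddChar.map_zero_eq_one, mul_one] at h1
    have h2 := congrArg Complex.re h1
    rw [Complex.ofReal_re] at h2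
    rw [← h2, hρ]
    have e1 : ((x : ℂ) ^ 2 * (d : ℂ)) = ((sd : ℝ) : ℂ) := by rw [← hxdsd]; push_cast; ring
    rw [e1]
    simp only [Complex.add_re, Complex.ofReal_re, Complex.natCast_re, Complex.re_ofReal_mul,
      Complex.neg_re, Complex.one_re]
    ring
  obtain ⟨N, hN⟩ : ∃ N : ℝ, N = x ^ 4 * NF := ⟨_, rfl⟩
  have hNval : N = 1 + 2 * x ^ 2 - 2 * x ^ 5 + x ^ 3 * ρ + 2 * x ^ 4 := by
    rw [hN, hNFval]
    have e1 : x ^ 4 * x⁻¹ = x ^ 3 := by field_simp
    have e2 : x ^ 4 * sd = x ^ 2 := by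
      have : x ^ 4 * sd = x ^ 2 * (sd * x ^ 2) := by ring
      rw [this, hsdx, mul_one]
    linear_combination hx4 + 2 * e2 + ρ * e1
  obtain ⟨hρ3, hρ4⟩ := abs_le.1 hρ2
  have hx3 : 0 < x ^ 3 := pow_pos hx0 3
  have hx3ρ1 : -(2 * x ^ 3) ≤ x ^ 3 * ρ := by nlinarith
  have hx3ρ2 : x ^ 3 * ρ ≤ 2 * x ^ 3 := by nlinarith
  have hN1 : 1 ≤ N := by
    rw [hNval]
    have : 0 ≤ 2 * x ^ 2 * ((1 - x) + x ^ 2 * (1 - x)) := by
      have : 0 < 1 - x := by linarith
      positivity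
    nlinarith
  have hN2 : N ≤ 1 + 6 * x ^ 2 := by
    rw [hNval]
    have e1 : x ^ 3 ≤ x ^ 2 := by nlinarith [pow_pos hx0 2]
    have e2 : x ^ 4 ≤ x ^ 2 := by nlinarith [pow_pos hx0 2]
    have e3 : 0 < x ^ 5 := pow_pos hx0 5
    linarith
  have hNFpos : 0 < NF := by
    have : 0 < x ^ 4 * NF := by rw [← hN]; linarith
    exact (mul_pos_iff_of_pos_left (pow_pos hx0 4)).1 this
  have hsq : (Real.sqrt NF)⁻¹ ^ 2 = NF⁻¹ := by
    rw [inv_pow, Real.sq_sqrt hNFpos.le]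
  refine ⟨fun j => (((Real.sqrt NF)⁻¹ : ℝ) : ℂ) * tvec χ e x j, ?_, ?_⟩
  · have : ∀ j, ‖(((Real.sqrt NF)⁻¹ : ℝ) : ℂ) * tvec χ e x j‖ ^ 2 = NF⁻¹ * ‖tvec χ e x j‖ ^ 2 := by
      intro j
      rw [norm_mul, mul_pow, Complex.norm_real, Real.norm_eq_abs, sq_abs, hsq]
    simp_rw [this]
    rw [← Finset.mul_sum, ← hNF, inv_mul_cancel₀ hNFpos.ne']
  · intro a b hab
    rw [overlap_smul, norm_mul, mul_pow, norm_pow, Complex.norm_real, Real.norm_eq_abs, sq_abs, hsq]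
    obtain ⟨v, hv⟩ : ∃ v : ℝ, v = ‖overlap (tvec χ e x) a b‖ := ⟨_, rfl⟩
    have hv0 : 0 ≤ v := by rw [hv]; exact norm_nonneg _
    have hw : |x ^ 2 * v - 1| ≤ 4 * x + 4 * x ^ 2 := by
      have h1 := hmain a b hab
      have h2 := hrem a b
      have h3 := h.tvec_overlap hx0.ne' a b
      obtain ⟨M, hM⟩ : ∃ M : ℂ, M = S χ e (1 - e a) b +
        ((x : ℂ) ^ 2 * (if b = 0 then (d : ℂ) else 0) + if a = 0 then ((x⁻¹ ^ 2 : ℝ) : ℂ) else 0) := ⟨_, rfl⟩
      obtain ⟨R, hR⟩ : ∃ R : ℂ, R = (x : ℂ) * (S χ e (-e a) b + S χ e 1 b)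
          + ((x⁻¹ : ℝ) : ℂ) * (χ (-e a) + χ (e (-a)) * ZMod.stdAddChar (-(a * b)))
          + (1 + ZMod.stdAddChar (-(a * b))) := ⟨_, rfl⟩
      rw [← hM] at h1 h3
      rw [← hR] at h2 h3
      have h4 : v ≤ ‖M‖ + ‖R‖ := by rw [hv, h3]; exact norm_add_le _ _
      have h5 : ‖M‖ - ‖R‖ ≤ v := by
        rw [hv, h3]
        have := norm_sub_norm_le M (-R)
        rwa [norm_neg, sub_neg_eq_add] at this
      obtain ⟨h6, h7⟩ := abs_le.1 h1
      have h8 : |v - sd| ≤ 1 + (x * (2 * (sd + x ^ 2 / 2)) + x⁻¹ * 2 + 2) := by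
        rw [abs_le]; constructor <;> linarith
      have h9 : x ^ 2 * v - 1 = x ^ 2 * (v - sd) := by
        rw [mul_sub, mul_comm (x ^ 2) sd, hsdx]
      rw [h9, abs_mul, abs_of_pos (pow_pos hx0 2)]
      refine (mul_le_mul_of_nonneg_left h8 (pow_pos hx0 2).le).trans ?_
      have e1 : x ^ 2 * (1 + (x * (2 * (sd + x ^ 2 / 2)) + x⁻¹ * 2 + 2))
        = 3 * x ^ 2 + 2 * x * (sd * x ^ 2) + x ^ 5 + 2 * (x ^ 2 * x⁻¹) := by ring
      have e2 : x ^ 2 * x⁻¹ = x := by field_simp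
      rw [e1, hsdx, e2]
      have e3 : x ^ 5 ≤ x ^ 2 := pow_le_pow_of_le_one hx0.le hx1.le (by norm_num)
      linarith
    have hfin := numeric hx0 hx4' (by positivity : 0 ≤ x ^ 2 * v) hw hN1 hN2
    have hval : ((d : ℝ) + 1) * (NF⁻¹ ^ 2 * v ^ 2) = (1 + x ^ 4) * (x ^ 2 * v) ^ 2 / N ^ 2 := by
      rw [hN]
      have hx40 : x ^ 4 ≠ 0 := (pow_pos hx0 4).ne'
      field_simp
      linear_combination v ^ 2 * hx4
    rw [← hv, hval]
    exact hfin

end Pool.Agent.Q142.SIC
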